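import Pool.Agent.R920.WC.Main

/-!
# Global generation for weighted complete intersections with pairwise coprime weights
-/

set_option autoImplicit false

open MvPolynomial

namespace Pool.Agent.R920.WC

theorem weight_eq {ι : Type*} [Fintype ι] (a : ι → ℕ) (m : ι →₀ ℕ) :
    Finsupp.weight a m = ∑ i, m i * a i := by
  rw [Finsupp.weight_apply, Finsupp.sum_fintype _ _ (fun i => by simp)]
  simp

theorem prod_ne_zero_iff' {ι : Type*} [Fintype ι] (v : ι → ℂ) (m : ι →₀ ℕ) :
    (∏ i, v i ^ m i ≠ 0) ↔ ∀ i, v i = 0 → m i = 0 := by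
  rw [Finset.prod_ne_zero_iff]
  constructor
  · intro h i hi
    by_contra hm
    exact h i (Finset.mem_univ _) (by rw [hi, zero_pow hm])
  · intro h i _
    by_cases hi : v i = 0
    · rw [h i hi, pow_zero]
      exact one_ne_zero
    · exact pow_ne_zero _ hi

/-- if the value of `f` is nonzero, some monomial is nonzero -/
theorem exists_monomial {ι : Type*} [Fintype ι] (f : MvPolynomial ι ℂ) (v : ι → ℂ)
    (h : eval v f ≠ 0) : ∃ m ∈ f.support, ∀ i, v i = 0 → m i = 0 := by
  rw [eval_eq'] at h
  obtain ⟨m, hm, h1⟩ := Finset.exists_ne_zero_of_sum_ne_zero h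
  exact ⟨m, hm, (prod_ne_zero_iff' v m).1 (right_ne_zero_of_mul h1)⟩

/-- if the value of `f` is zero and one monomial is nonzero there is another one -/
theorem exists_other {ι : Type*} [Fintype ι] (f : MvPolynomial ι ℂ) (v : ι → ℂ)
    (h : eval v f = 0) {m : ι →₀ ℕ} (hm : m ∈ f.support) (hv : ∀ i, v i = 0 → m i = 0) :
    ∃ m' ∈ f.support, m' ≠ m ∧ ∀ i, v i = 0 → m' i = 0 := by
  classical
  rw [eval_eq', ← Finset.add_sum_erase _ _ hm] at h
  have h1 : coeff m f * ∏ i, v i ^ m i ≠ 0 :=
    mul_ne_zero (mem_support_iff.1 hm) ((prod_ne_zero_iff' v m).2 hv)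
  have h2 : ∑ x ∈ f.support.erase m, coeff x f * ∏ i, v i ^ x i ≠ 0 := by
    intro h3
    rw [h3, add_zero] at h
    exact h1 h
  obtain ⟨m', hm', h3⟩ := Finset.exists_ne_zero_of_sum_ne_zero h2
  exact ⟨m', Finset.mem_of_mem_erase hm', Finset.ne_of_mem_erase hm',
    (prod_ne_zero_iff' v m').1 (right_ne_zero_of_mul h3)⟩

/-- the theorem -/
theorem generated {ι : Type*} [Fintype ι] [DecidableEq ι] {κ : Type*} [Fintype κ] [DecidableEq κ]
    (a : ι → ℕ) (ha : ∀ i, 0 < a i) (hcop : ∀ i k, i ≠ k → Nat.Coprime (a i) (a k))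
    (d : κ → ℕ) (hd : ∀ j, 0 < d j) (f : κ → MvPolynomial ι ℂ)
    (hf : ∀ j, IsWeightedHomogeneous a (f j) (d j))
    (hX : ∀ i, 1 < a i → ∃ j, eval (Pi.single i 1 : ι → ℂ) (f j) ≠ 0)
    {e : ℕ} (he : ∑ j, (d j - 1) ≤ e + ∑ i, (a i - 1))
    (v : ι → ℂ) (hv : v ≠ 0) (hfv : ∀ j, eval v (f j) = 0) :
    ∃ s : MvPolynomial ι ℂ, IsWeightedHomogeneous a s e ∧ eval v s ≠ 0 := by
  classical
  -- it is enough to write `e` as a combination of the weights of the nonzero coordinates
  set I : Finset ι := Finset.univ.filter fun i => v i ≠ 0 with hI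
  have hmemI : ∀ i, i ∈ I ↔ v i ≠ 0 := fun i => by simp [hI]
  have hIne : I.Nonempty := by
    by_contra h
    rw [Finset.not_nonempty_iff_eq_empty] at h
    refine hv (funext fun i => ?_)
    by_contra hi
    have := (hmemI i).2 hi
    rw [h] at this
    exact absurd this (Finset.notMem_empty i)
  have key : ∃ m : ι → ℕ, ∑ k ∈ I, m k * a k = e := by
    by_cases h1 : ∃ i ∈ I, a i = 1
    · obtain ⟨i, hi, hai⟩ := h1
      refine ⟨fun k => if k = i then e else 0, ?_⟩
      simp [hi, hai]
    · push Not at h1
      have hI1 : ∀ i ∈ I, 1 < a i := fun i hi => by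
        have := h1 i hi
        have := ha i
        omega
      -- the pure powers
      have hpure : ∀ i, 1 < a i → ∃ j, ∃ l : ℕ, Finsupp.single i l ∈ (f j).support ∧
          l * a i = d j := by
        intro i hi
        obtain ⟨j, hj⟩ := hX i hi
        obtain ⟨m, hm, hm0⟩ := exists_monomial (f j) _ hj
        have h2 : m = Finsupp.single i (m i) := by
          ext k
          by_cases hk : k = i
          · subst hk
            simp
          · rw [hm0 k (Pi.single_eq_of_ne hk _), Finsupp.single_eq_of_ne hk]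
        refine ⟨j, m i, h2 ▸ hm, ?_⟩
        have h3 := hf j (mem_support_iff.1 hm)
        rw [weight_eq, Finset.sum_eq_single_of_mem i (Finset.mem_univ _)] at h3
        · exact h3
        · intro k _ hk
          rw [hm0 k (Pi.single_eq_of_ne hk _), zero_mul]
      have hκ : Nonempty κ := by
        obtain ⟨i, hi⟩ := hIne
        obtain ⟨j, -⟩ := hpure i (hI1 i hi)
        exact ⟨j⟩
      have hpure' : ∀ i, ∃ j, 1 < a i → ∃ l : ℕ, Finsupp.single i l ∈ (f j).support ∧
          l * a i = d j := by
        intro i
        by_cases hi : 1 < a i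
        · obtain ⟨j, hj⟩ := hpure i hi
          exact ⟨j, fun _ => hj⟩
        · exact ⟨Classical.choice hκ, fun h => absurd h hi⟩
      choose J hJ using hpure'
      refine arithmetic a ha hcop d hd J ?_ I hIne hI1 ?_ he
      · intro i hi
        obtain ⟨l, -, hl⟩ := hJ i hi
        exact ⟨l, by rw [← hl, mul_comm]⟩
      · intro i hi
        obtain ⟨l, hl, hla⟩ := hJ i (hI1 i hi)
        have hvi : v i ≠ 0 := (hmemI i).1 hi
        obtain ⟨m, hm, hne, hm0⟩ := exists_other (f (J i)) v (hfv (J i)) hl (by
          intro k hk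
          have : k ≠ i := fun h => hvi (h ▸ hk)
          rw [Finsupp.single_eq_of_ne this])
        refine ⟨m, ?_, ?_⟩
        · have h3 := hf (J i) (mem_support_iff.1 hm)
          rw [weight_eq] at h3
          rw [← h3]
          refine Finset.sum_subset (Finset.subset_univ _) fun k _ hk => ?_
          have : v k = 0 := by
            by_contra h
            exact hk ((hmemI k).2 h)
          rw [hm0 k this, zero_mul]
        · by_contra hcon
          push Not at hcon
          have h4 : ∀ k, k ≠ i → m k = 0 := by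
            intro k hk
            by_cases hkI : k ∈ I
            · exact hcon k hkI hk
            · refine hm0 k ?_
              by_contra h
              exact hkI ((hmemI k).2 h)
          have h3 := hf (J i) (mem_support_iff.1 hm)
          rw [weight_eq, Finset.sum_eq_single_of_mem i (Finset.mem_univ _)
            (fun k _ hk => by rw [h4 k hk, zero_mul])] at h3
          have h5 : m i = l := by
            have : m i * a i = l * a i := by rw [h3, hla]
            exact Nat.eq_of_mul_eq_mul_right (ha i) this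
          refine hne ?_
          ext k
          by_cases hk : k = i
          · subst hk
            rw [h5]
            simp
          · rw [h4 k hk, Finsupp.single_eq_of_ne hk]
  obtain ⟨m, hm⟩ := key
  refine ⟨monomial (Finsupp.equivFunOnFinite.symm fun k => if k ∈ I then m k else 0) 1, ?_, ?_⟩
  · refine isWeightedHomogeneous_monomial _ _ _ ?_
    rw [weight_eq, ← hm]
    simp only [Finsupp.equivFunOnFinite_symm_apply_apply, ite_mul, zero_mul]
    rw [Finset.sum_ite_mem, Finset.univ_inter]
  · rw [eval_monomial, one_mul, Finsupp.prod_fintype _ _ (fun i => pow_zero _)]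
    rw [prod_ne_zero_iff']
    intro i hi
    have : i ∉ I := fun h => (hmemI i).1 h hi
    simp [this]

end Pool.Agent.R920.WC
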