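import Pool.Agent.R920.WC.Poly
import Pool.Agent.H552R3.Tsen.Zero

/-!
# The number of the weights and of the degrees divisible by `g`
-/

set_option autoImplicit false

open MvPolynomial

namespace Pool.Agent.R920.WC

variable {ι : Type*} [Fintype ι] [DecidableEq ι] {κ : Type*} [Fintype κ]

/-- The number of the weights divisible by `g` is at most the number of the degrees divisible by
`g`. -/
theorem card_weights_le (a : ι → ℕ) (ha : ∀ i, 0 < a i) (d : κ → ℕ) (hd : ∀ j, 0 < d j)
    (f : κ → MvPolynomial ι ℂ) (hf : ∀ j, IsWeightedHomogeneous a (f j) (d j))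
    (hgcd : ∀ v : ι → ℂ, v ≠ 0 → (∀ j, eval v (f j) = 0) →
      ∀ g : ℕ, (∀ i, v i ≠ 0 → g ∣ a i) → g = 1) {g : ℕ} (hg : g ≠ 1) :
    (Finset.univ.filter fun i => g ∣ a i).card ≤ (Finset.univ.filter fun j => g ∣ d j).card := by
  classical
  by_contra hcon
  push Not at hcon
  let K := {i : ι // g ∣ a i}
  let D := {j : κ // g ∣ d j}
  have hK : Fintype.card K = (Finset.univ.filter fun i => g ∣ a i).card := Fintype.card_subtype _
  have hD : Fintype.card D = (Finset.univ.filter fun j => g ∣ d j).card := Fintype.card_subtype _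
  let res : MvPolynomial ι ℂ →ₐ[ℂ] MvPolynomial K ℂ :=
    aeval (fun i => if h : g ∣ a i then X (⟨i, h⟩ : K) else 0)
  let ext : (K → ℂ) → ι → ℂ := fun u i => if h : g ∣ a i then u ⟨i, h⟩ else 0
  have hres : ∀ (u : K → ℂ) (p : MvPolynomial ι ℂ), eval u (res p) = eval (ext u) p := by
    intro u p
    have h1 : ((aeval u : MvPolynomial K ℂ →ₐ[ℂ] ℂ).comp res) = aeval (ext u) := by
      apply MvPolynomial.algHom_ext
      intro i
      simp only [AlgHom.comp_apply, res, ext, aeval_X]
      by_cases h : g ∣ a i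
      · simp [h]
      · simp [h]
    have h2 := congrArg (fun φ => φ p) (congrArg DFunLike.coe h1)
    simpa [coe_aeval_eq_eval] using h2
  have hzero : ∀ j, eval (0 : ι → ℂ) (f j) = 0 := by
    intro j
    by_contra h
    obtain ⟨m, hm, hm0⟩ := exists_monomial (f j) _ h
    have h3 := hf j (mem_support_iff.1 hm)
    rw [weight_eq, Finset.sum_eq_zero (fun i _ => by rw [hm0 i rfl, zero_mul])] at h3
    have := hd j
    omega
  obtain ⟨u, hu, hu0⟩ := Pool.Agent.H552R3.Tsen.exists_common_zero
    (fun j : D => res (f j)) (fun j => by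
      rw [hres]
      have : ext 0 = 0 := by
        funext i
        simp only [ext]
        split <;> simp
      rw [this]
      exact hzero j) (by rw [hK, hD]; exact hcon)
  refine hg (hgcd (ext u) ?_ ?_ g ?_)
  · intro h
    refine hu (funext fun i => ?_)
    have := congrFun h i.1
    simp only [ext, i.2, dif_pos, Pi.zero_apply] at this
    exact this
  · intro j
    by_cases hj : g ∣ d j
    · have := hu0 ⟨j, hj⟩
      rwa [hres] at this
    · by_contra h
      obtain ⟨m, hm, hm0⟩ := exists_monomial (f j) _ h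
      have h3 := hf j (mem_support_iff.1 hm)
      rw [weight_eq] at h3
      refine hj ?_
      rw [← h3]
      refine Finset.dvd_sum fun i _ => ?_
      by_cases hi : g ∣ a i
      · exact Dvd.dvd.mul_left hi _
      · rw [hm0 i (by simp only [ext, hi, dif_neg, not_false_eq_true]), zero_mul]
        exact dvd_zero g
  · intro i hi
    by_contra h
    exact hi (by simp only [ext, h, dif_neg, not_false_eq_true])

/-- the pure power of a variable of weight `> 1` -/
theorem exists_pure (a : ι → ℕ) (d : κ → ℕ)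
    (f : κ → MvPolynomial ι ℂ) (hf : ∀ j, IsWeightedHomogeneous a (f j) (d j))
    (hgcd : ∀ v : ι → ℂ, v ≠ 0 → (∀ j, eval v (f j) = 0) →
      ∀ g : ℕ, (∀ i, v i ≠ 0 → g ∣ a i) → g = 1) {i : ι} (hi : a i ≠ 1) :
    ∃ j, ∃ l : ℕ, Finsupp.single i l ∈ (f j).support ∧ l * a i = d j := by
  classical
  have hj : ∃ j, eval (Pi.single i 1 : ι → ℂ) (f j) ≠ 0 := by
    by_contra hcon
    push Not at hcon
    refine hi (hgcd (Pi.single i 1) (by
      intro h
      have := congrFun h i
      rw [Pi.single_eq_same] at this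
      exact one_ne_zero this) hcon (a i) (by
      intro i' hi'
      have : i' = i := by
        by_contra hne
        exact hi' (Pi.single_eq_of_ne hne _)
      rw [this]))
  obtain ⟨j, hj⟩ := hj
  obtain ⟨m, hm, hm0⟩ := exists_monomial (f j) _ hj
  have h2 : m = Finsupp.single i (m i) := by
    ext k
    by_cases hk : k = i
    · subst hk
      simp
    · rw [hm0 k (Pi.single_eq_of_ne hk _), Finsupp.single_eq_of_ne hk]
  refine ⟨j, m i, h2 ▸ hm, ?_⟩
  have h3 := hf j (mem_support_iff.1 hm)
  rw [weight_eq, Finset.sum_eq_single_of_mem i (Finset.mem_univ _)] at h3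
  · exact h3
  · intro k _ hk
    rw [hm0 k (Pi.single_eq_of_ne hk _), zero_mul]

/-- a second monomial on the support of a zero -/
theorem exists_second (a : ι → ℕ) (ha : ∀ i, 0 < a i) (d : κ → ℕ)
    (f : κ → MvPolynomial ι ℂ) (hf : ∀ j, IsWeightedHomogeneous a (f j) (d j))
    (v : ι → ℂ) {j : κ} (hfv : eval v (f j) = 0) {i : ι} (hvi : v i ≠ 0) {l : ℕ}
    (hl : Finsupp.single i l ∈ (f j).support) (hla : l * a i = d j) :
    ∃ m : ι → ℕ, (∀ k, v k = 0 → m k = 0) ∧ ∑ k, m k * a k = d j ∧ ∃ k, k ≠ i ∧ m k ≠ 0 := by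
  classical
  obtain ⟨m, hm, hne, hm0⟩ := exists_other (f j) v hfv hl (by
    intro k hk
    have : k ≠ i := fun h => hvi (h ▸ hk)
    rw [Finsupp.single_eq_of_ne this])
  have h3 := hf j (mem_support_iff.1 hm)
  rw [weight_eq] at h3
  refine ⟨m, hm0, h3, ?_⟩
  by_contra hcon
  push Not at hcon
  rw [Finset.sum_eq_single_of_mem i (Finset.mem_univ _)
    (fun k _ hk => by rw [hcon k hk, zero_mul])] at h3
  have h5 : m i = l := by
    have : m i * a i = l * a i := by rw [h3, hla]
    exact Nat.eq_of_mul_eq_mul_right (ha i) this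
  refine hne ?_
  ext k
  by_cases hk : k = i
  · subst hk
    rw [h5]
    simp
  · rw [hcon k hk, Finsupp.single_eq_of_ne hk]

/-- a combination of the weights of the nonzero coordinates gives a form -/
theorem exists_form (a : ι → ℕ) (v : ι → ℂ) {e : ℕ}
    (h : ∃ m : ι → ℕ, ∑ k ∈ Finset.univ.filter (fun i => v i ≠ 0), m k * a k = e) :
    ∃ s : MvPolynomial ι ℂ, IsWeightedHomogeneous a s e ∧ eval v s ≠ 0 := by
  classical
  obtain ⟨m, hm⟩ := h
  set I : Finset ι := Finset.univ.filter fun i => v i ≠ 0 with hI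
  have hmemI : ∀ i, i ∈ I ↔ v i ≠ 0 := fun i => by simp [hI]
  refine ⟨monomial (Finsupp.equivFunOnFinite.symm fun k => if k ∈ I then m k else 0) 1, ?_, ?_⟩
  · refine isWeightedHomogeneous_monomial _ _ _ ?_
    rw [weight_eq, ← hm]
    simp only [Finsupp.equivFunOnFinite_symm_apply_apply, ite_mul, zero_mul]
    rw [Finset.sum_ite_mem, Finset.univ_inter]
  · rw [eval_monomial, one_mul, Finsupp.prod_fintype _ _ (fun i => pow_zero _)]
    rw [prod_ne_zero_iff']
    intro i hi
    have : i ∉ I := fun h => (hmemI i).1 h hi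
    simp [this]

end Pool.Agent.R920.WC
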