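import Pool.Agent.R920.WC.Min

/-!
# The arithmetic of weighted complete intersections with pairwise coprime weights
-/

set_option autoImplicit false

namespace Pool.Agent.R920.WC

variable {ι : Type*} [DecidableEq ι]

theorem one_add_sum_le_prod (T : Finset ι) (a : ι → ℕ) (ha : ∀ i ∈ T, 1 ≤ a i) :
    1 + ∑ i ∈ T, (a i - 1) ≤ ∏ i ∈ T, a i := by
  classical
  induction T using Finset.induction_on with
  | empty => simp
  | insert i T hi ih =>
    rw [Finset.sum_insert hi, Finset.prod_insert hi]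
    have h1 := ih fun k hk => ha k (Finset.mem_insert_of_mem hk)
    have h2 := ha i (Finset.mem_insert_self _ _)
    have h3 : 1 ≤ ∏ k ∈ T, a k := by omega
    obtain ⟨x, hx⟩ : ∃ x, a i = x + 1 := ⟨a i - 1, by omega⟩
    rw [hx]
    have h4 : (x + 1) * ∏ k ∈ T, a k = x * ∏ k ∈ T, a k + ∏ k ∈ T, a k := by ring
    rw [h4]
    have h5 : x ≤ x * ∏ k ∈ T, a k := Nat.le_mul_of_pos_right _ h3
    omega

theorem prod_dvd (T : Finset ι) (a : ι → ℕ)
    (hcop : ∀ i ∈ T, ∀ k ∈ T, i ≠ k → Nat.Coprime (a i) (a k)) (d : ℕ) (hd : ∀ i ∈ T, a i ∣ d) :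
    ∏ i ∈ T, a i ∣ d := by
  classical
  induction T using Finset.induction_on with
  | empty => simp
  | insert i T hi ih =>
    rw [Finset.prod_insert hi]
    refine Nat.Coprime.mul_dvd_of_dvd_of_dvd ?_ (hd i (Finset.mem_insert_self _ _))
      (ih (fun k hk l hl => hcop k (Finset.mem_insert_of_mem hk) l (Finset.mem_insert_of_mem hl))
        fun k hk => hd k (Finset.mem_insert_of_mem hk))
    refine Nat.Coprime.prod_right fun k hk => ?_
    exact hcop i (Finset.mem_insert_self _ _) k (Finset.mem_insert_of_mem hk)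
      (fun h => hi (h ▸ hk))

/-- two coprime numbers -/
theorem mem_of_pair {x y e : ℕ} (hx : 1 < x) (hy : 1 < y) (hcop : Nat.Coprime x y)
    (he : (x - 1) * (y - 1) ≤ e) : ∃ p q : ℕ, p * x + q * y = e := by
  obtain ⟨t, ht⟩ := Nat.exists_mul_mod_eq_of_coprime (e % x) hcop.symm (by omega)
  have h1 : y * t ≡ e [MOD x] := by
    show y * t % x = e % x
    rw [ht.2, Nat.mod_mod]
  have htx : t ≤ x - 1 := by
    have := ht.1
    omega
  have h2 : y * t ≤ e := by
    by_contra hcon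
    push Not at hcon
    have h3 : x ∣ y * t - e := (Nat.modEq_iff_dvd' hcon.le).1 h1.symm
    have h4 := Nat.le_of_dvd (by omega) h3
    have h5 : y * t ≤ y * (x - 1) := Nat.mul_le_mul_left _ htx
    obtain ⟨u, hu⟩ : ∃ u, x = u + 1 := ⟨x - 1, by omega⟩
    obtain ⟨w, hw⟩ : ∃ w, y = w + 1 := ⟨y - 1, by omega⟩
    subst hu
    subst hw
    simp only [Nat.add_sub_cancel] at he h5
    have h6 : (w + 1) * u = u * w + u := by ring
    omega
  obtain ⟨q, hq⟩ := (Nat.modEq_iff_dvd' h2).1 h1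
  refine ⟨q, t, ?_⟩
  have : q * x = e - y * t := by rw [hq, mul_comm]
  have h6 : t * y = y * t := mul_comm _ _
  omega

/-- The main arithmetic statement. `a` are the weights, `d` the degrees; each weight `a i > 1`
divides `d (J i)`, and for `i` in `I` there is another monomial of degree `d (J i)`. -/
theorem arithmetic [Fintype ι] {κ : Type*} [Fintype κ] [DecidableEq κ] (a : ι → ℕ)
    (ha : ∀ i, 0 < a i) (hcop : ∀ i k, i ≠ k → Nat.Coprime (a i) (a k)) (d : κ → ℕ)
    (hd : ∀ j, 0 < d j) (J : ι → κ) (hJ : ∀ i, 1 < a i → a i ∣ d (J i)) (I : Finset ι)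
    (hI : I.Nonempty) (hI1 : ∀ i ∈ I, 1 < a i)
    (hrel : ∀ i ∈ I, ∃ m : ι → ℕ, ∑ k ∈ I, m k * a k = d (J i) ∧ ∃ k ∈ I, k ≠ i ∧ m k ≠ 0)
    {e : ℕ} (he : ∑ j, (d j - 1) ≤ e + ∑ i, (a i - 1)) :
    ∃ m : ι → ℕ, ∑ k ∈ I, m k * a k = e := by
  classical
  -- the weights assigned to `j`
  set T : κ → Finset ι := fun j => Finset.univ.filter fun i => 1 < a i ∧ J i = j with hT
  have hmemT : ∀ i, 1 < a i → i ∈ T (J i) := fun i hi => by simp [hT, hi]
  have hTJ : ∀ j, ∀ i ∈ T j, 1 < a i ∧ J i = j := fun j i hi => (Finset.mem_filter.1 hi).2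
  have hsum : ∑ i, (a i - 1) = ∑ j, ∑ i ∈ T j, (a i - 1) := by
    have h1 : ∑ i, (a i - 1) = ∑ i ∈ Finset.univ.filter (fun i => 1 < a i), (a i - 1) := by
      rw [Finset.sum_filter]
      refine Finset.sum_congr rfl fun i _ => ?_
      by_cases h : 1 < a i
      · rw [if_pos h]
      · rw [if_neg h]
        have := ha i
        omega
    rw [h1, ← Finset.sum_fiberwise (s := Finset.univ.filter (fun i => 1 < a i)) (g := J)]
    refine Finset.sum_congr rfl fun j _ => ?_
    rw [Finset.filter_filter]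
  have hdvd : ∀ j, ∏ i ∈ T j, a i ∣ d j := fun j =>
    prod_dvd (T j) a (fun i _ k _ h => hcop i k h) (d j)
      (fun i hi => by
        obtain ⟨h1, h2⟩ := hTJ j i hi
        rw [← h2]
        exact hJ i h1)
  have hle : ∀ j, ∑ i ∈ T j, (a i - 1) ≤ d j - 1 := by
    intro j
    have h1 := one_add_sum_le_prod (T j) a (fun i _ => ha i)
    have h2 := Nat.le_of_dvd (hd j) (hdvd j)
    omega
  -- excess of a set of indices
  have hex : ∀ S : Finset κ, ∑ j ∈ S, (d j - 1) ≤ e + ∑ j ∈ S, ∑ i ∈ T j, (a i - 1) := by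
    intro S
    rw [hsum, ← Finset.sum_add_sum_compl S (fun j => d j - 1),
      ← Finset.sum_add_sum_compl S (fun j => ∑ i ∈ T j, (a i - 1))] at he
    have h1 : ∑ j ∈ Sᶜ, ∑ i ∈ T j, (a i - 1) ≤ ∑ j ∈ Sᶜ, (d j - 1) :=
      Finset.sum_le_sum fun j _ => hle j
    omega
  by_cases hinj : ∀ i ∈ I, ∀ k ∈ I, J i = J k → i = k
  · -- different degrees
    set ℓ : ι → ℕ := fun i => d (J i) / a i with hℓ
    have hℓa : ∀ i, 1 < a i → ℓ i * a i = d (J i) := fun i hi => Nat.div_mul_cancel (hJ i hi)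
    have hcl : Closed a ℓ I := by
      refine ⟨hI, fun i hi => ?_⟩
      obtain ⟨m, hm, hk⟩ := hrel i hi
      exact ⟨m, by rw [hm, hℓa i (hI1 i hi)], hk⟩
    obtain ⟨C, hCI, hC⟩ := exists_minimal hcl
    have hℓpos : ∀ i ∈ C, 0 < ℓ i := by
      intro i hi
      have h1 := hℓa i (hI1 i (hCI hi))
      have h2 := hd (J i)
      rcases Nat.eq_zero_or_pos (ℓ i) with h | h
      · rw [h, zero_mul] at h1
        omega
      · exact h
    have hterm : ∀ i ∈ C, (ℓ i - 1) * (a i - 1) + ∑ k ∈ T (J i), (a k - 1) ≤ d (J i) - 1 := by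
      intro i hi
      have hai := hI1 i (hCI hi)
      have hiT := hmemT i hai
      rw [← Finset.add_sum_erase _ _ hiT]
      have h1 := one_add_sum_le_prod ((T (J i)).erase i) a (fun k _ => ha k)
      have h2 : ∏ k ∈ (T (J i)).erase i, a k ∣ ℓ i := by
        have h3 := hdvd (J i)
        rw [← Finset.mul_prod_erase _ _ hiT, ← hℓa i hai, mul_comm (ℓ i)] at h3
        exact Nat.dvd_of_mul_dvd_mul_left (ha i) h3
      have h3 := Nat.le_of_dvd (hℓpos i hi) h2
      have h4 : ∑ k ∈ (T (J i)).erase i, (a k - 1) ≤ ℓ i - 1 := by omega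
      obtain ⟨x, hx⟩ : ∃ x, a i = x + 1 := ⟨a i - 1, by omega⟩
      obtain ⟨y, hy⟩ : ∃ y, ℓ i = y + 1 := ⟨ℓ i - 1, by have := hℓpos i hi; omega⟩
      rw [← hℓa i hai]
      rw [hy] at h4 ⊢
      rw [hx]
      simp only [Nat.add_sub_cancel] at h4 ⊢
      have h5 : (y + 1) * (x + 1) = y * x + x + y + 1 := by ring
      rw [h5]
      omega
    have hbound : ∑ i ∈ C, (ℓ i - 1) * (a i - 1) ≤ e := by
      have h1 := hex (C.image J)
      rw [Finset.sum_image (fun i hi k hk h => hinj i (hCI hi) k (hCI hk) h),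
        Finset.sum_image (fun i hi k hk h => hinj i (hCI hi) k (hCI hk) h)] at h1
      have h2 := Finset.sum_le_sum hterm
      rw [Finset.sum_add_distrib] at h2
      omega
    obtain ⟨m, hm⟩ := hC.mem_of_large (fun i hi => hI1 i (hCI hi))
      (fun i _ k _ h => hcop i k h) hℓpos hbound
    refine ⟨fun k => if k ∈ C then m k else 0, ?_⟩
    rw [← hm, ← Finset.sum_subset hCI]
    · refine Finset.sum_congr rfl fun k hk => ?_
      show (if k ∈ C then m k else 0) * a k = m k * a k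
      rw [if_pos hk]
    · intro k _ hk
      show (if k ∈ C then m k else 0) * a k = 0
      rw [if_neg hk, zero_mul]
  · -- two weights for the same degree
    push Not at hinj
    obtain ⟨i, hi, k, hk, hik, hne⟩ := hinj
    have hai := hI1 i hi
    have hak := hI1 k hk
    have hiT := hmemT i hai
    have hkT : k ∈ (T (J i)).erase i := by
      rw [hik]
      exact Finset.mem_erase.2 ⟨Ne.symm hne, hmemT k hak⟩
    have h1 := hex {J i}
    rw [Finset.sum_singleton, Finset.sum_singleton, ← Finset.add_sum_erase _ _ hiT,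
      ← Finset.add_sum_erase _ _ hkT] at h1
    have h2 := Nat.le_of_dvd (hd (J i)) (hdvd (J i))
    rw [← Finset.mul_prod_erase _ _ hiT, ← Finset.mul_prod_erase _ _ hkT] at h2
    have h3 := one_add_sum_le_prod (((T (J i)).erase i).erase k) a (fun k _ => ha k)
    set R := ∑ k ∈ ((T (J i)).erase i).erase k, (a k - 1) with hR
    set P := ∏ k ∈ ((T (J i)).erase i).erase k, a k with hP
    have h4 : (a i - 1) * (a k - 1) ≤ e := by
      obtain ⟨x, hx⟩ : ∃ x, a i = x + 1 := ⟨a i - 1, by omega⟩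
      obtain ⟨y, hy⟩ : ∃ y, a k = y + 1 := ⟨a k - 1, by omega⟩
      rw [hx, hy] at h1 h2 ⊢
      simp only [Nat.add_sub_cancel] at h1 ⊢
      have h5 : (x + 1) * ((y + 1) * (1 + R)) ≤ d (J i) :=
        le_trans (Nat.mul_le_mul_left _ (Nat.mul_le_mul_left _ h3)) h2
      have h6 : (x + 1) * ((y + 1) * (1 + R)) = x * y + x + y + 1 + R + (x * y + x + y) * R := by
        ring
      rw [h6] at h5
      have h7 : 0 ≤ (x * y + x + y) * R := Nat.zero_le _
      omega
    obtain ⟨p, q, hpq⟩ := mem_of_pair hai hak (hcop i k hne) h4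
    refine ⟨fun z => (if z = i then p else 0) + (if z = k then q else 0), ?_⟩
    simp only [add_mul, Finset.sum_add_distrib, ite_mul, zero_mul, Finset.sum_ite_eq']
    rw [if_pos hi, if_pos hk]
    exact hpq

end Pool.Agent.R920.WC
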