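import Pool.Agent.R920.WC.Semi

/-!
# Minimal sets of pairwise coprime numbers with relations
-/

set_option autoImplicit false

namespace Pool.Agent.R920.WC

variable {ι : Type*} [DecidableEq ι]

/-- all elements of `C` have a relation in `C` -/
def Closed (a ℓ : ι → ℕ) (C : Finset ι) : Prop :=
  C.Nonempty ∧ ∀ i ∈ C, ∃ m, Rel a ℓ C i m

/-- `C` is a minimal closed set -/
def Minimal' (a ℓ : ι → ℕ) (C : Finset ι) : Prop :=
  Closed a ℓ C ∧ ∀ U ⊆ C, Closed a ℓ U → U = C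

theorem exists_minimal {a ℓ : ι → ℕ} {I : Finset ι} (hI : Closed a ℓ I) :
    ∃ C ⊆ I, Minimal' a ℓ C := by
  classical
  induction I using Finset.strongInduction with
  | H I ih =>
    by_cases h : ∀ U ⊆ I, Closed a ℓ U → U = I
    · exact ⟨I, Finset.Subset.refl _, hI, h⟩
    · push Not at h
      obtain ⟨U, hU, hc, hne⟩ := h
      obtain ⟨C, hC, hmin⟩ := ih U (Finset.ssubset_iff_subset_ne.2 ⟨hU, hne⟩) hc
      exact ⟨C, hC.trans hU, hmin⟩

variable {a ℓ : ι → ℕ} {C : Finset ι}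

theorem Minimal'.not_closed (hC : Minimal' a ℓ C) {M : ι → ι → ℕ} (hM : ∀ i ∈ C, Rel a ℓ C i (M i)) :
    ∀ U ⊆ C, U.Nonempty → U ≠ C → ∃ i ∈ U, ∃ k ∈ C, k ∉ U ∧ M i k ≠ 0 := by
  intro U hU hne hUC
  by_contra hcon
  push Not at hcon
  refine hUC (hC.2 U hU ⟨hne, fun i hi => ⟨M i, ?_, ?_⟩⟩)
  · rw [← (hM i (hU hi)).1]
    refine Finset.sum_subset hU fun k hk hkU => ?_
    rw [hcon i hi k hk hkU, zero_mul]
  · obtain ⟨k, hk, hki, hMk⟩ := (hM i (hU hi)).2
    refine ⟨k, ?_, hki, hMk⟩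
    by_contra hkU
    exact hMk (hcon i hi k hk hkU)

/-- no element is a combination of the others -/
theorem Minimal'.irredundant (hC : Minimal' a ℓ C) (ha : ∀ i ∈ C, 1 < a i)
    (hcop : ∀ i ∈ C, ∀ k ∈ C, i ≠ k → Nat.Coprime (a i) (a k)) {i₁ : ι} (hi₁ : i₁ ∈ C)
    (u : ι → ℕ) : ∑ k ∈ C.erase i₁, u k * a k ≠ a i₁ := by
  intro hu
  have hne : (C.erase i₁).Nonempty := by
    obtain ⟨m, -, k, hk, hki, -⟩ := hC.1.2 i₁ hi₁
    exact ⟨k, Finset.mem_erase.2 ⟨hki, hk⟩⟩
  have h1 : Closed a ℓ (C.erase i₁) := by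
    refine ⟨hne, fun i hi => ?_⟩
    have hiC := Finset.mem_of_mem_erase hi
    have hii := Finset.ne_of_mem_erase hi
    obtain ⟨m, hm, k, hk, hki, hmk⟩ := hC.1.2 i hiC
    refine ⟨fun x => m x + m i₁ * u x, ?_, ?_⟩
    · rw [← hm, ← Finset.add_sum_erase _ _ hi₁]
      simp only [add_mul, Finset.sum_add_distrib]
      have : ∑ x ∈ C.erase i₁, m i₁ * u x * a x = m i₁ * a i₁ := by
        rw [← hu, Finset.mul_sum]
        exact Finset.sum_congr rfl fun x _ => by ring
      rw [this, add_comm]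
    · by_cases hki₁ : k = i₁
      · subst hki₁
        -- some u x is nonzero with x ≠ i
        by_contra hcon
        push Not at hcon
        have h2 : ∀ x ∈ C.erase k, x ≠ i → u x = 0 := by
          intro x hx hxi
          have := hcon x hx hxi
          have h3 : m k * u x = 0 := by omega
          rcases Nat.mul_eq_zero.1 h3 with h | h
          · exact absurd h hmk
          · exact h
        have h3 : a k = u i * a i := by
          rw [← hu]
          rw [Finset.sum_eq_single_of_mem i hi]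
          intro x hx hxi
          rw [h2 x hx hxi, zero_mul]
        have h4 : a i ∣ a k := ⟨u i, by rw [h3, mul_comm]⟩
        have h5 := (hcop i hiC k hi₁ hii)
        have h6 : a i = 1 := Nat.Coprime.eq_one_of_dvd h5 h4
        have := ha i hiC
        omega
      · refine ⟨k, Finset.mem_erase.2 ⟨hki₁, hk⟩, hki, ?_⟩
        show m k + m i₁ * u k ≠ 0
        omega
  have h2 := hC.2 _ (Finset.erase_subset _ _) h1
  exact (Finset.notMem_erase i₁ C) (by rw [h2]; exact hi₁)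

/-- the number of elements is at most each element -/
theorem Minimal'.card_le (hC : Minimal' a ℓ C) (ha : ∀ i ∈ C, 1 < a i)
    (hcop : ∀ i ∈ C, ∀ k ∈ C, i ≠ k → Nat.Coprime (a i) (a k)) {i₀ : ι} (hi₀ : i₀ ∈ C) :
    C.card ≤ a i₀ := by
  classical
  have h1 : (C.erase i₀).card ≤ ((Finset.range (a i₀)).erase 0).card := by
    refine Finset.card_le_card_of_injOn (fun i => a i % a i₀) ?_ ?_
    · intro i hi
      have hi' : i ∈ C.erase i₀ := hi
      have hiC := Finset.mem_of_mem_erase hi'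
      have hii := Finset.ne_of_mem_erase hi'
      show a i % a i₀ ∈ (Finset.range (a i₀)).erase 0
      rw [Finset.mem_erase, Finset.mem_range]
      refine ⟨fun h => ?_, Nat.mod_lt _ (by have := ha i₀ hi₀; omega)⟩
      have h4 : a i₀ ∣ a i := Nat.dvd_of_mod_eq_zero h
      have h6 : a i₀ = 1 := Nat.Coprime.eq_one_of_dvd (hcop i₀ hi₀ i hiC hii.symm) h4
      have := ha i₀ hi₀
      omega
    · intro i hi k hk hik
      have hi' : i ∈ C.erase i₀ := hi
      have hk' : k ∈ C.erase i₀ := hk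
      by_contra hne
      -- the larger one is a combination of the smaller one and a i₀
      have key : ∀ x ∈ C.erase i₀, ∀ y ∈ C.erase i₀, x ≠ y → a x % a i₀ = a y % a i₀ →
          a x ≤ a y → False := by
        intro x hx y hy hxy hmod hle
        have hxC := Finset.mem_of_mem_erase hx
        have hyC := Finset.mem_of_mem_erase hy
        have hx0 := Finset.ne_of_mem_erase hx
        have hy0 := Finset.ne_of_mem_erase hy
        obtain ⟨q, hq⟩ : a i₀ ∣ a y - a x := (Nat.modEq_iff_dvd' hle).1 hmod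
        refine hC.irredundant ha hcop hyC (fun z => if z = x then 1 else if z = i₀ then q else 0) ?_
        have e1 : ∀ z, (if z = x then 1 else if z = i₀ then q else 0) * a z =
            (if z = x then a x else 0) + (if z = i₀ then q * a i₀ else 0) := by
          intro z
          by_cases h1 : z = x
          · subst h1
            simp [hx0]
          · by_cases h2 : z = i₀
            · subst h2
              simp [h1]
            · simp [h1, h2]
        simp only [e1, Finset.sum_add_distrib, Finset.sum_ite_eq', Finset.mem_erase]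
        rw [if_pos ⟨hxy, hxC⟩, if_pos ⟨hy0.symm, hi₀⟩, mul_comm q]
        omega
      rcases le_total (a i) (a k) with h | h
      · exact key i hi' k hk' hne hik h
      · exact key k hk' i hi' (Ne.symm hne) hik.symm h
  have ha0 := ha i₀ hi₀
  rw [Finset.card_erase_of_mem hi₀, Finset.card_erase_of_mem (by simp; omega),
    Finset.card_range] at h1
  omega

/-- the numerical consequence for minimal sets -/
theorem Minimal'.mem_of_large (hC : Minimal' a ℓ C) (ha : ∀ i ∈ C, 1 < a i)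
    (hcop : ∀ i ∈ C, ∀ k ∈ C, i ≠ k → Nat.Coprime (a i) (a k)) (hℓ : ∀ i ∈ C, 0 < ℓ i) {e : ℕ}
    (he : ∑ i ∈ C, (ℓ i - 1) * (a i - 1) ≤ e) : ∃ m : ι → ℕ, ∑ k ∈ C, m k * a k = e := by
  classical
  choose! M hM using hC.1.2
  -- the largest ℓ i * a i
  obtain ⟨i₀, hi₀, hmax⟩ := Finset.exists_max_image C (fun i => ℓ i * a i) hC.1.1
  obtain ⟨-, i₁, hi₁, hne, -⟩ := hM i₀ hi₀
  -- the smallest a i
  obtain ⟨i₂, hi₂, hmin⟩ := Finset.exists_min_image C a hC.1.1
  have h1 : ∑ i ∈ C, ℓ i ≤ ℓ i₀ * a i₀ := by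
    have h2 : (∑ i ∈ C, ℓ i) * a i₂ ≤ a i₂ * (ℓ i₀ * a i₀) := by
      calc (∑ i ∈ C, ℓ i) * a i₂ = ∑ i ∈ C, ℓ i * a i₂ := Finset.sum_mul _ _ _
        _ ≤ ∑ i ∈ C, ℓ i * a i := Finset.sum_le_sum fun i hi => Nat.mul_le_mul_left _ (hmin i hi)
        _ ≤ ∑ i ∈ C, ℓ i₀ * a i₀ := Finset.sum_le_sum fun i hi => hmax i hi
        _ = C.card * (ℓ i₀ * a i₀) := by rw [Finset.sum_const, smul_eq_mul]
        _ ≤ a i₂ * (ℓ i₀ * a i₀) := Nat.mul_le_mul_right _ (hC.card_le ha hcop hi₂)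
    have h3 : 0 < a i₂ := by have := ha i₂ hi₂; omega
    rw [mul_comm] at h2
    exact Nat.le_of_mul_le_mul_left h2 h3
  refine Pool.Agent.R920.WC.mem_of_large (fun i hi => by have := ha i hi; omega)
    (fun i hi => (hM i hi).1) (hC.not_closed hM) hi₀ hi₁ (hcop i₁ hi₁ i₀ hi₀ hne) ?_
  -- the inequality, in the integers
  have h4 : ∑ i ∈ C, ((ℓ i : ℤ) - 1) * ((a i : ℤ) - 1) ≤ e := by
    have : ((∑ i ∈ C, (ℓ i - 1) * (a i - 1) : ℕ) : ℤ) = ∑ i ∈ C, ((ℓ i : ℤ) - 1) * ((a i : ℤ) - 1) := by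
      push_cast
      refine Finset.sum_congr rfl fun i hi => ?_
      rw [Nat.cast_sub (hℓ i hi), Nat.cast_sub (ha i hi).le]
      push_cast
      ring
    rw [← this]
    exact_mod_cast he
  have h5 : ((∑ i ∈ C.erase i₀, (ℓ i - 1) * a i : ℕ) : ℤ) =
      ∑ i ∈ C.erase i₀, ((ℓ i : ℤ) - 1) * (a i : ℤ) := by
    push_cast
    refine Finset.sum_congr rfl fun i hi => ?_
    rw [Nat.cast_sub (hℓ i (Finset.mem_of_mem_erase hi))]
    push_cast
    ring
  have h6 : (∑ i ∈ C, (ℓ i : ℤ)) ≤ ℓ i₀ * a i₀ := by exact_mod_cast h1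
  rw [← Finset.add_sum_erase _ _ hi₀] at h4 h6
  have h7 : ∑ i ∈ C.erase i₀, ((ℓ i : ℤ) - 1) * (a i : ℤ) =
      ∑ i ∈ C.erase i₀, ((ℓ i : ℤ) - 1) * ((a i : ℤ) - 1) + ∑ i ∈ C.erase i₀, ((ℓ i : ℤ) - 1) := by
    rw [← Finset.sum_add_distrib]
    exact Finset.sum_congr rfl fun i _ => by ring
  have h8 : ∑ i ∈ C.erase i₀, ((ℓ i : ℤ) - 1) = ∑ i ∈ C.erase i₀, (ℓ i : ℤ) - (C.erase i₀).card := by
    rw [Finset.sum_sub_distrib]
    simp
  have h9 : (1 : ℤ) ≤ (C.erase i₀).card := by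
    have : 0 < (C.erase i₀).card := Finset.card_pos.2 ⟨i₁, Finset.mem_erase.2 ⟨hne, hi₁⟩⟩
    exact_mod_cast this
  have h10 : ((∑ i ∈ C.erase i₀, (ℓ i - 1) * a i : ℕ) : ℤ) < e + a i₀ := by
    rw [h5, h7, h8]
    nlinarith
  exact_mod_cast h10

end Pool.Agent.R920.WC
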