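import Mathlib

/-!
# Semigroups generated by numbers with relations: reduced representations
-/

set_option autoImplicit false

namespace Pool.Agent.R920.WC

variable {ι : Type*} [DecidableEq ι]

/-- `ℓ i * a i` is a combination of the `a i'`, `i' ∈ C`, which involves some `i' ≠ i` -/
def Rel (a ℓ : ι → ℕ) (C : Finset ι) (i : ι) (m : ι → ℕ) : Prop :=
  ∑ k ∈ C, m k * a k = ℓ i * a i ∧ ∃ k ∈ C, k ≠ i ∧ m k ≠ 0

/-- weights along which the relations increase -/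
theorem exists_weights {a ℓ : ι → ℕ} {C : Finset ι} {M : ι → ι → ℕ}
    (hmin : ∀ U ⊆ C, U.Nonempty → U ≠ C → ∃ i ∈ U, ∃ k ∈ C, k ∉ U ∧ M i k ≠ 0)
    {i₀ : ι} (hi₀ : i₀ ∈ C) :
    ∃ W : ι → ℕ, ∀ i ∈ C, i ≠ i₀ → ∃ k ∈ C, M i k ≠ 0 ∧ k ≠ i ∧ ℓ i * W i < W k := by
  classical
  -- the property for a subset
  let P : Finset ι → Prop := fun U => U ⊆ C ∧ i₀ ∈ U ∧ ∃ W : ι → ℕ, (∀ i, 0 < W i) ∧
    ∀ i ∈ U, i ≠ i₀ → ∃ k ∈ U, M i k ≠ 0 ∧ k ≠ i ∧ ℓ i * W i < W k
  have h0 : P {i₀} := by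
    refine ⟨Finset.singleton_subset_iff.2 hi₀, Finset.mem_singleton_self _, fun _ => 1,
      fun _ => one_pos, ?_⟩
    intro i hi hne
    exact absurd (Finset.mem_singleton.1 hi) hne
  obtain ⟨U, hU, hmax⟩ : ∃ U, P U ∧ ∀ U', P U' → U'.card ≤ U.card := by
    have hfin : {n | ∃ U, P U ∧ U.card = n}.Finite := by
      refine Set.Finite.subset (Set.finite_le_nat C.card) ?_
      rintro n ⟨U, hU, rfl⟩
      exact Finset.card_le_card hU.1
    obtain ⟨n, ⟨U, hU, rfl⟩, hn⟩ := hfin.exists_maximal ⟨_, {i₀}, h0, rfl⟩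
    refine ⟨U, hU, fun U' hU' => ?_⟩
    by_contra hlt
    push Not at hlt
    have := hn ⟨U', hU', rfl⟩ hlt.le
    omega
  obtain ⟨hUC, hiU, W, hW, hprop⟩ := hU
  by_cases hUeq : U = C
  · subst hUeq
    exact ⟨W, hprop⟩
  · exfalso
    have hne : (C \ U).Nonempty := by
      rw [Finset.sdiff_nonempty]
      intro h
      exact hUeq (Finset.Subset.antisymm hUC h)
    have hne' : C \ U ≠ C := by
      intro h
      have : i₀ ∈ C \ U := by rw [h]; exact hi₀
      exact (Finset.mem_sdiff.1 this).2 hiU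
    obtain ⟨i, hi, k, hk, hkU, hM⟩ := hmin (C \ U) Finset.sdiff_subset hne hne'
    have hiC := (Finset.mem_sdiff.1 hi).1
    have hiU' := (Finset.mem_sdiff.1 hi).2
    have hkU' : k ∈ U := by
      by_contra h
      exact hkU (Finset.mem_sdiff.2 ⟨hk, h⟩)
    have hP : P (insert i U) := by
      refine ⟨Finset.insert_subset hiC hUC, Finset.mem_insert_of_mem hiU,
        fun x => if x = i then 1 else (ℓ i + 1) * W x, ?_, ?_⟩
      · intro x
        by_cases hx : x = i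
        · simp [hx]
        · simp only [hx, if_false]
          exact Nat.mul_pos (Nat.succ_pos _) (hW x)
      · intro x hx hx0
        by_cases hxi : x = i
        · subst hxi
          have hkx : k ≠ x := fun h => hiU' (h ▸ hkU')
          refine ⟨k, Finset.mem_insert_of_mem hkU', hM, hkx, ?_⟩
          simp only [hkx, if_false, if_true, mul_one]
          have := hW k
          nlinarith
        · have hxU : x ∈ U := (Finset.mem_insert.1 hx).resolve_left hxi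
          obtain ⟨k', hk', hM', hne'', hlt⟩ := hprop x hxU hx0
          have hk'i : k' ≠ i := fun h => hiU' (h ▸ hk')
          refine ⟨k', Finset.mem_insert_of_mem hk', hM', hne'', ?_⟩
          simp only [hxi, hk'i, if_false]
          calc ℓ x * ((ℓ i + 1) * W x) = (ℓ i + 1) * (ℓ x * W x) := by ring
            _ < (ℓ i + 1) * W k' := (Nat.mul_lt_mul_left (Nat.succ_pos _)).2 hlt
    have := hmax _ hP
    rw [Finset.card_insert_of_notMem hiU'] at this
    omega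

/-- every combination can be reduced modulo the relations -/
theorem exists_reduced {a ℓ : ι → ℕ} {C : Finset ι} (ha : ∀ i ∈ C, 0 < a i) {M : ι → ι → ℕ}
    (hM : ∀ i ∈ C, ∑ k ∈ C, M i k * a k = ℓ i * a i)
    (hmin : ∀ U ⊆ C, U.Nonempty → U ≠ C → ∃ i ∈ U, ∃ k ∈ C, k ∉ U ∧ M i k ≠ 0)
    {i₀ : ι} (hi₀ : i₀ ∈ C) (m₀ : ι → ℕ) :
    ∃ m : ι → ℕ, ∑ k ∈ C, m k * a k = ∑ k ∈ C, m₀ k * a k ∧ ∀ i ∈ C, i ≠ i₀ → m i < ℓ i := by
  classical
  obtain ⟨W, hW⟩ := exists_weights (a := a) (ℓ := ℓ) hmin hi₀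
  set s := ∑ k ∈ C, m₀ k * a k with hs
  -- bounded potential
  have hbd : ∀ m : ι → ℕ, ∑ k ∈ C, m k * a k = s → ∑ k ∈ C, m k * W k ≤ ∑ k ∈ C, s * W k := by
    intro m hm
    refine Finset.sum_le_sum fun k hk => Nat.mul_le_mul_right _ ?_
    calc m k ≤ m k * a k := Nat.le_mul_of_pos_right _ (ha k hk)
      _ ≤ ∑ k ∈ C, m k * a k := Finset.single_le_sum (f := fun k => m k * a k)
          (fun _ _ => Nat.zero_le _) hk
      _ = s := hm
  have hfin : {n | ∃ m : ι → ℕ, ∑ k ∈ C, m k * a k = s ∧ ∑ k ∈ C, m k * W k = n}.Finite := by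
    refine Set.Finite.subset (Set.finite_le_nat (∑ k ∈ C, s * W k)) ?_
    rintro n ⟨m, hm, rfl⟩
    exact hbd m hm
  obtain ⟨n, ⟨m, hm, hmn⟩, hn⟩ := hfin.exists_maximal ⟨_, m₀, hs.symm, rfl⟩
  refine ⟨m, hm, fun i hi hne => ?_⟩
  by_contra hlt
  push Not at hlt
  obtain ⟨k, hk, hMk, hki, hWk⟩ := hW i hi hne
  -- the new representation
  set m' : ι → ℕ := fun x => (if x = i then m x - ℓ i else m x) + M i x with hm'
  have e1 : ∀ g : ι → ℕ, ∑ x ∈ C, (if x = i then m x - ℓ i else m x) * g x + ℓ i * g i =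
      ∑ x ∈ C, m x * g x := by
    intro g
    rw [← Finset.add_sum_erase _ _ hi, ← Finset.add_sum_erase (a := i) (f := fun x => m x * g x) _ hi]
    have h1 : ∑ x ∈ C.erase i, (if x = i then m x - ℓ i else m x) * g x =
        ∑ x ∈ C.erase i, m x * g x := by
      refine Finset.sum_congr rfl fun x hx => ?_
      rw [if_neg (Finset.ne_of_mem_erase hx)]
    rw [h1, if_pos rfl]
    have h2 : (m i - ℓ i) * g i + ℓ i * g i = m i * g i := by
      rw [← add_mul, Nat.sub_add_cancel hlt]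
    omega
  have e2 : ∀ g : ι → ℕ, ∑ x ∈ C, m' x * g x + ℓ i * g i = ∑ x ∈ C, m x * g x + ∑ x ∈ C, M i x * g x := by
    intro g
    rw [← e1 g]
    simp only [hm', add_mul, Finset.sum_add_distrib]
    ring
  have h3 : ∑ x ∈ C, m' x * a x = s := by
    have := e2 a
    rw [hM i hi, hm] at this
    omega
  have h4 : ∑ x ∈ C, m x * W x < ∑ x ∈ C, m' x * W x := by
    have := e2 W
    have h5 : M i k * W k ≤ ∑ x ∈ C, M i x * W x := Finset.single_le_sum
      (f := fun x => M i x * W x) (fun _ _ => Nat.zero_le _) hk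
    have h6 : W k ≤ M i k * W k := Nat.le_mul_of_pos_left _ (Nat.pos_of_ne_zero hMk)
    omega
  have h7 := hn ⟨m', h3, rfl⟩ (by rw [← hmn]; exact h4.le)
  omega

/-- the conductor bound -/
theorem mem_of_large {a ℓ : ι → ℕ} {C : Finset ι} (ha : ∀ i ∈ C, 0 < a i) {M : ι → ι → ℕ}
    (hM : ∀ i ∈ C, ∑ k ∈ C, M i k * a k = ℓ i * a i)
    (hmin : ∀ U ⊆ C, U.Nonempty → U ≠ C → ∃ i ∈ U, ∃ k ∈ C, k ∉ U ∧ M i k ≠ 0)
    {i₀ i₁ : ι} (hi₀ : i₀ ∈ C) (hi₁ : i₁ ∈ C) (hcop : Nat.Coprime (a i₁) (a i₀)) {e : ℕ}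
    (he : ∑ i ∈ C.erase i₀, (ℓ i - 1) * a i < e + a i₀) :
    ∃ m : ι → ℕ, ∑ k ∈ C, m k * a k = e := by
  classical
  -- an element of the semigroup congruent to e
  obtain ⟨t, ht⟩ : ∃ t : ℕ, t * a i₁ ≡ e [MOD a i₀] := by
    obtain ⟨u, hu⟩ := Nat.exists_mul_mod_eq_of_coprime (e % a i₀) hcop (ha i₀ hi₀).ne'
    refine ⟨u, ?_⟩
    show u * a i₁ % a i₀ = e % a i₀
    rw [mul_comm, hu.2, Nat.mod_mod]
  obtain ⟨m, hm, hlt⟩ := exists_reduced ha hM hmin hi₀ (fun k => if k = i₁ then t else 0)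
  have h1 : ∑ k ∈ C, (if k = i₁ then t else 0) * a k = t * a i₁ := by
    simp [hi₁]
  rw [h1] at hm
  set s' := ∑ k ∈ C.erase i₀, m k * a k with hs'
  have h2 : m i₀ * a i₀ + s' = t * a i₁ := by
    rw [← hm, hs']
    exact Finset.add_sum_erase C (fun k => m k * a k) hi₀
  have h3 : s' ≡ e [MOD a i₀] := by
    refine Nat.ModEq.trans ?_ ht
    rw [← h2]
    show s' % a i₀ = (m i₀ * a i₀ + s') % a i₀
    rw [add_comm, Nat.add_mul_mod_self_right]
  have h4 : s' ≤ ∑ i ∈ C.erase i₀, (ℓ i - 1) * a i := by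
    refine Finset.sum_le_sum fun i hi => Nat.mul_le_mul_right _ ?_
    have := hlt i (Finset.mem_of_mem_erase hi) (Finset.ne_of_mem_erase hi)
    omega
  have h5 : s' ≤ e := by
    by_contra hcon
    push Not at hcon
    have h6 : a i₀ ∣ s' - e := (Nat.modEq_iff_dvd' hcon.le).1 h3.symm
    have h7 := Nat.le_of_dvd (by omega) h6
    omega
  have h6 : a i₀ ∣ e - s' := (Nat.modEq_iff_dvd' h5).1 h3
  obtain ⟨q, hq⟩ := h6
  refine ⟨fun k => if k = i₀ then q else m k, ?_⟩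
  rw [← Finset.add_sum_erase _ _ hi₀]
  have h8 : ∑ k ∈ C.erase i₀, (if k = i₀ then q else m k) * a k = s' := by
    rw [hs']
    refine Finset.sum_congr rfl fun x hx => ?_
    rw [if_neg (Finset.ne_of_mem_erase hx)]
  rw [h8]
  show (if i₀ = i₀ then q else m i₀) * a i₀ + s' = e
  rw [if_pos rfl]
  have : q * a i₀ = e - s' := by rw [hq, mul_comm]
  omega

end Pool.Agent.R920.WC
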