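import Pool.Agent.R920.WC.Dim

/-!
# Codimension two: termwise inequalities
-/

set_option autoImplicit false

namespace Pool.Agent.R920.WC

open Finset

/-- `[g ∣ x]` -/
def dv (g x : ℕ) : ℕ := if g ∣ x then 1 else 0

theorem dv_of {g x : ℕ} (h : g ∣ x) : dv g x = 1 := by simp [dv, h]

theorem dv_of_not {g x : ℕ} (h : ¬ g ∣ x) : dv g x = 0 := by simp [dv, h]

theorem dv_le_one (g x : ℕ) : dv g x ≤ 1 := by unfold dv; split <;> omega

theorem dv_mono {q g x : ℕ} (h : q ∣ g) : dv g x ≤ dv q x := by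
  by_cases h1 : g ∣ x
  · rw [dv_of h1, dv_of (h.trans h1)]
  · rw [dv_of_not h1]
    exact Nat.zero_le _

theorem sum_totient_add_one {N x : ℕ} (hx : 0 < x) (hN : x ≤ N) :
    ∑ g ∈ Icc 2 N, Nat.totient g * dv g x + 1 = x := by
  have h1 := Nat.sum_totient x
  have h2 : x.divisors = insert 1 ((Icc 2 N).filter (· ∣ x)) := by
    ext g
    simp only [Nat.mem_divisors, mem_insert, mem_filter, mem_Icc]
    constructor
    · rintro ⟨h, -⟩
      have := Nat.le_of_dvd hx h
      have := Nat.pos_of_dvd_of_pos h hx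
      by_cases hg : g = 1
      · exact Or.inl hg
      · exact Or.inr ⟨⟨by omega, by omega⟩, h⟩
    · rintro (rfl | ⟨-, h⟩)
      · exact ⟨one_dvd _, hx.ne'⟩
      · exact ⟨h, hx.ne'⟩
  rw [h2, sum_insert (by simp), Nat.totient_one, sum_filter] at h1
  have h3 : ∑ g ∈ Icc 2 N, Nat.totient g * dv g x =
      ∑ g ∈ Icc 2 N, if g ∣ x then Nat.totient g else 0 := by
    refine sum_congr rfl fun g _ => ?_
    unfold dv
    split <;> simp
  rw [h3]
  omega

/-- the core of the termwise inequalities -/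
theorem core2 {d₁ d₂ g t : ℕ} (hg : 1 < g)
    (h : ∀ p k : ℕ, p.Prime → p ^ (k + 1) ∣ g → t ≤ dv (p ^ (k + 1)) d₁ + dv (p ^ (k + 1)) d₂)
    (h1 : t = 1 → 1 ≤ dv g d₁ + dv g d₂) : t ≤ dv g d₁ + dv g d₂ := by
  rcases Nat.lt_or_ge t 2 with ht | ht
  · rcases Nat.lt_or_ge t 1 with h0 | h0
    · omega
    · have : t = 1 := by omega
      have := h1 this
      omega
  · have hq : ∀ p k : ℕ, p.Prime → p ^ (k + 1) ∣ g → p ^ (k + 1) ∣ d₁ ∧ p ^ (k + 1) ∣ d₂ := by
      intro p k hp hk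
      have h2 := h p k hp hk
      constructor
      · by_contra hn
        rw [dv_of_not hn] at h2
        have := dv_le_one (p ^ (k + 1)) d₂
        omega
      · by_contra hn
        rw [dv_of_not hn] at h2
        have := dv_le_one (p ^ (k + 1)) d₁
        omega
    have hd₁ : g ∣ d₁ := by
      rw [Nat.dvd_iff_prime_pow_dvd_dvd]
      intro p k hp hk
      rcases k with _ | k
      · simp
      · exact (hq p k hp hk).1
    have hd₂ : g ∣ d₂ := by
      rw [Nat.dvd_iff_prime_pow_dvd_dvd]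
      intro p k hp hk
      rcases k with _ | k
      · simp
      · exact (hq p k hp hk).2
    obtain ⟨p, hp, hpg⟩ := Nat.exists_prime_and_dvd (by omega : g ≠ 1)
    have h2 := h p 0 hp (by simpa using hpg)
    have h3 := dv_le_one (p ^ (0 + 1)) d₁
    have h4 := dv_le_one (p ^ (0 + 1)) d₂
    rw [dv_of hd₁, dv_of hd₂]
    omega

theorem prime_pow_dvd_lcm {p k x y : ℕ} (hp : p.Prime) (hx : x ≠ 0) (hy : y ≠ 0)
    (h : p ^ k ∣ Nat.lcm x y) : p ^ k ∣ x ∨ p ^ k ∣ y := by
  rw [hp.pow_dvd_iff_le_factorization (Nat.lcm_ne_zero hx hy), Nat.factorization_lcm hx hy,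
    Finsupp.sup_apply] at h
  rw [hp.pow_dvd_iff_le_factorization hx, hp.pow_dvd_iff_le_factorization hy]
  exact le_sup_iff.1 h

/-- two numbers -/
theorem term_two {d₁ d₂ x y r : ℕ} {g : ℕ} (hg : 1 < g) (hx : x ≠ 0) (hy : y ≠ 0)
    (hw : ∀ q : ℕ, 1 < q → q ∣ g → r + dv q x + dv q y ≤ dv q d₁ + dv q d₂)
    (hL : Nat.lcm x y ∣ d₁ ∨ Nat.lcm x y ∣ d₂) :
    dv g (Nat.lcm x y) + r ≤ dv g d₁ + dv g d₂ := by
  by_cases hA : g ∣ Nat.lcm x y
  · rw [dv_of hA]
    refine core2 hg ?_ ?_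
    · intro p k hp hk
      have h1 := hw (p ^ (k + 1)) (Nat.one_lt_pow (by omega) hp.one_lt) hk
      rcases prime_pow_dvd_lcm hp hx hy (hk.trans hA) with h | h
      · rw [dv_of h] at h1
        omega
      · rw [dv_of h] at h1
        omega
    · intro _
      rcases hL with h | h
      · rw [dv_of (hA.trans h)]
        omega
      · rw [dv_of (hA.trans h)]
        omega
  · rw [dv_of_not hA]
    have := hw g hg dvd_rfl
    omega

/-- three numbers -/
theorem term_three {d₁ d₂ x y z r : ℕ} {g : ℕ} (hg : 1 < g) (hx : x ≠ 0) (hy : y ≠ 0) (hz : z ≠ 0)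
    (hw : ∀ q : ℕ, 1 < q → q ∣ g → r + dv q x + dv q y + dv q z ≤ dv q d₁ + dv q d₂)
    (hL : Nat.lcm x y ∣ d₁ ∨ Nat.lcm x y ∣ d₂)
    (hL' : Nat.lcm (Nat.gcd x y) z ∣ d₁ ∨ Nat.lcm (Nat.gcd x y) z ∣ d₂) :
    dv g (Nat.lcm x y) + dv g (Nat.lcm (Nat.gcd x y) z) + r ≤ dv g d₁ + dv g d₂ := by
  have hgcd : Nat.gcd x y ≠ 0 := by
    rw [Ne, Nat.gcd_eq_zero_iff]
    exact fun h => hx h.1
  have h1 : g ∣ Nat.lcm x y → ∀ p k : ℕ, p.Prime → p ^ (k + 1) ∣ g →
      1 ≤ dv (p ^ (k + 1)) x + dv (p ^ (k + 1)) y := by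
    intro hA p k hp hk
    rcases prime_pow_dvd_lcm hp hx hy (hk.trans hA) with h | h
    · rw [dv_of h]
      omega
    · rw [dv_of h]
      omega
  have h2 : g ∣ Nat.lcm (Nat.gcd x y) z → ∀ p k : ℕ, p.Prime → p ^ (k + 1) ∣ g →
      2 ≤ dv (p ^ (k + 1)) x + dv (p ^ (k + 1)) y ∨ 1 ≤ dv (p ^ (k + 1)) z := by
    intro hA p k hp hk
    rcases prime_pow_dvd_lcm hp hgcd hz (hk.trans hA) with h | h
    · left
      rw [dv_of (h.trans (Nat.gcd_dvd_left _ _)), dv_of (h.trans (Nat.gcd_dvd_right _ _))]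
    · right
      rw [dv_of h]
  by_cases hA : g ∣ Nat.lcm x y <;> by_cases hB : g ∣ Nat.lcm (Nat.gcd x y) z
  · rw [dv_of hA, dv_of hB]
    refine core2 hg ?_ (by omega)
    intro p k hp hk
    have h3 := hw (p ^ (k + 1)) (Nat.one_lt_pow (by omega) hp.one_lt) hk
    have h4 := h1 hA p k hp hk
    rcases h2 hB p k hp hk with h5 | h5 <;> omega
  · rw [dv_of hA, dv_of_not hB]
    refine core2 hg ?_ ?_
    · intro p k hp hk
      have h3 := hw (p ^ (k + 1)) (Nat.one_lt_pow (by omega) hp.one_lt) hk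
      have h4 := h1 hA p k hp hk
      omega
    · intro _
      rcases hL with h | h
      · rw [dv_of (hA.trans h)]
        omega
      · rw [dv_of (hA.trans h)]
        omega
  · rw [dv_of_not hA, dv_of hB]
    refine core2 hg ?_ ?_
    · intro p k hp hk
      have h3 := hw (p ^ (k + 1)) (Nat.one_lt_pow (by omega) hp.one_lt) hk
      rcases h2 hB p k hp hk with h5 | h5 <;> omega
    · intro _
      rcases hL' with h | h
      · rw [dv_of (hB.trans h)]
        omega
      · rw [dv_of (hB.trans h)]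
        omega
  · rw [dv_of_not hA, dv_of_not hB]
    have := hw g hg dvd_rfl
    omega

/-- the semigroup generated by three numbers -/
theorem mem_of_triple {x y z e : ℕ} (hx : 0 < x) (hy : 0 < y) (hz : 0 < z)
    (hcop : Nat.Coprime (Nat.gcd x y) z)
    (he : Nat.lcm x y + Nat.lcm (Nat.gcd x y) z < e + x + y + z) :
    ∃ p q r : ℕ, p * x + q * y + r * z = e := by
  set g := Nat.gcd x y with hg
  have hg0 : 0 < g := Nat.gcd_pos_of_pos_left _ hx
  obtain ⟨x', hx'⟩ : g ∣ x := Nat.gcd_dvd_left _ _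
  obtain ⟨y', hy'⟩ : g ∣ y := Nat.gcd_dvd_right _ _
  have hx'0 : 0 < x' := by
    rcases Nat.eq_zero_or_pos x' with h | h
    · rw [h, mul_zero] at hx'
      omega
    · exact h
  have hy'0 : 0 < y' := by
    rcases Nat.eq_zero_or_pos y' with h | h
    · rw [h, mul_zero] at hy'
      omega
    · exact h
  have hcop' : Nat.Coprime x' y' := by
    have h1 : g * Nat.gcd x' y' = g * 1 := by
      rw [← Nat.gcd_mul_left, ← hx', ← hy', mul_one]
    exact Nat.eq_of_mul_eq_mul_left hg0 h1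
  have hlcm : Nat.lcm x y = g * (x' * y') := by
    have h1 := Nat.gcd_mul_lcm x y
    rw [← hg] at h1
    have h2 : g * Nat.lcm x y = g * (g * (x' * y')) := by
      rw [h1]
      nth_rewrite 1 [hx']
      nth_rewrite 1 [hy']
      ring
    exact Nat.eq_of_mul_eq_mul_left hg0 h2
  have hlcm' : Nat.lcm g z = g * z := Nat.Coprime.lcm_eq_mul hcop
  rw [hlcm, hlcm'] at he
  -- the residue modulo g
  obtain ⟨t, ht⟩ := Nat.exists_mul_mod_eq_of_coprime (e % g) hcop.symm hg0.ne'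
  have h1 : z * t ≡ e [MOD g] := by
    show z * t % g = e % g
    rw [ht.2, Nat.mod_mod]
  have htx : t < g := ht.1
  obtain ⟨u, hu⟩ : ∃ u, g = t + 1 + u := ⟨g - (t + 1), by omega⟩
  have hxy : g * (x' + y') ≤ g * (x' * y') + g := by
    have : x' + y' ≤ x' * y' + 1 := by
      obtain ⟨p, rfl⟩ : ∃ p, x' = p + 1 := ⟨x' - 1, by omega⟩
      obtain ⟨q, rfl⟩ : ∃ q, y' = q + 1 := ⟨y' - 1, by omega⟩
      have : (p + 1) * (q + 1) = p * q + p + q + 1 := by ring
      have := Nat.zero_le (p * q)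
      omega
    calc g * (x' + y') ≤ g * (x' * y' + 1) := Nat.mul_le_mul_left _ this
      _ = g * (x' * y') + g := by ring
  have hgz : g * z = z * t + z + u * z := by
    conv_lhs => rw [hu]
    ring
  have hexy : x + y = g * (x' + y') := by
    conv_lhs => rw [hx', hy']
    ring
  have h2 : z * t ≤ e := by
    by_contra hcon
    push Not at hcon
    have h3 : g ∣ z * t - e := (Nat.modEq_iff_dvd' hcon.le).1 h1.symm
    have h4 := Nat.le_of_dvd (by omega) h3
    omega
  obtain ⟨q, hq⟩ := (Nat.modEq_iff_dvd' h2).1 h1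
  -- q is large
  have h3 : (x' - 1) * (y' - 1) ≤ q := by
    have h4 : x' * y' + 1 ≤ q + x' + y' := by
      by_contra hcon
      push Not at hcon
      have h5 : g * (q + x' + y') ≤ g * (x' * y') := Nat.mul_le_mul_left _ (by omega)
      have h6 : g * (q + x' + y') = g * q + g * (x' + y') := by ring
      have h7 := Nat.zero_le (u * z)
      omega
    obtain ⟨p', rfl⟩ : ∃ p, x' = p + 1 := ⟨x' - 1, by omega⟩
    obtain ⟨q', rfl⟩ : ∃ q, y' = q + 1 := ⟨y' - 1, by omega⟩
    simp only [Nat.add_sub_cancel]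
    have : (p' + 1) * (q' + 1) = p' * q' + p' + q' + 1 := by ring
    omega
  have h4 : ∃ p r : ℕ, p * x' + r * y' = q := by
    rcases Nat.lt_or_ge 1 x' with hx1 | hx1
    · rcases Nat.lt_or_ge 1 y' with hy1 | hy1
      · exact mem_of_pair hx1 hy1 hcop' h3
      · have : y' = 1 := by omega
        exact ⟨0, q, by rw [this]; ring⟩
    · have : x' = 1 := by omega
      exact ⟨q, 0, by rw [this]; ring⟩
  obtain ⟨p, r, hpr⟩ := h4
  refine ⟨p, r, t, ?_⟩
  have h5 : p * x + r * y = g * q := by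
    rw [← hpr]
    conv_lhs => rw [hx', hy']
    ring
  have h6 : t * z = z * t := mul_comm _ _
  omega

end Pool.Agent.R920.WC
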