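import Pool.Agent.R920.WC.TwoA

/-!
# Codimension two: the excess
-/

set_option autoImplicit false

namespace Pool.Agent.R920.WC

open Finset

variable {ι : Type*} [Fintype ι] [DecidableEq ι]

/-- the number of the weights divisible by `g` -/
def wt (a : ι → ℕ) (g : ℕ) : ℕ := ∑ i, dv g (a i)

theorem wt_eq_card (a : ι → ℕ) (g : ℕ) : wt a g = (univ.filter fun i => g ∣ a i).card := by
  unfold wt dv
  rw [card_filter]

/-- the numerical data of a codimension two weighted complete intersection -/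
structure Data (a : ι → ℕ) (d₁ d₂ : ℕ) : Prop where
  pos : ∀ i, 0 < a i
  d₁_pos : 0 < d₁
  d₂_pos : 0 < d₂
  star : ∀ g, 1 < g → wt a g ≤ dv g d₁ + dv g d₂

variable {a : ι → ℕ} {d₁ d₂ : ℕ}

theorem Data.symm (D : Data a d₁ d₂) : Data a d₂ d₁ :=
  ⟨D.pos, D.d₂_pos, D.d₁_pos, fun g hg => by rw [add_comm]; exact D.star g hg⟩

theorem dv_le_wt (a : ι → ℕ) (g : ℕ) (i : ι) : dv g (a i) ≤ wt a g :=
  single_le_sum (f := fun i => dv g (a i)) (fun _ _ => Nat.zero_le _) (mem_univ i)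

theorem Data.dvd_or (D : Data a d₁ d₂) (i : ι) : a i ∣ d₁ ∨ a i ∣ d₂ := by
  rcases Nat.lt_or_ge 1 (a i) with h | h
  · have h1 := D.star _ h
    have h2 := dv_le_wt a (a i) i
    rw [dv_of dvd_rfl] at h2
    by_contra hcon
    push Not at hcon
    rw [dv_of_not hcon.1, dv_of_not hcon.2] at h1
    omega
  · have : a i = 1 := by
      have := D.pos i
      omega
    rw [this]
    exact Or.inl (one_dvd _)

theorem Data.le_sum (D : Data a d₁ d₂) (i : ι) : a i ≤ d₁ + d₂ := by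
  rcases D.dvd_or i with h | h
  · have := Nat.le_of_dvd D.d₁_pos h
    omega
  · have := Nat.le_of_dvd D.d₂_pos h
    omega

theorem Data.sum_wt (D : Data a d₁ d₂) :
    ∑ g ∈ Icc 2 (d₁ + d₂), Nat.totient g * wt a g = ∑ i, (a i - 1) := by
  unfold wt
  simp only [mul_sum]
  rw [sum_comm]
  refine sum_congr rfl fun i _ => ?_
  have := sum_totient_add_one (D.pos i) (D.le_sum i)
  omega

/-- the hypothesis on `e` in terms of totients -/
theorem Data.le (D : Data a d₁ d₂) {e : ℕ} (he : (d₁ - 1) + (d₂ - 1) ≤ e + ∑ i, (a i - 1))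
    {X Y : ℕ → ℕ} (h : ∀ g, 1 < g → X g + wt a g ≤ dv g d₁ + dv g d₂ + Y g) :
    ∑ g ∈ Icc 2 (d₁ + d₂), Nat.totient g * X g ≤
      e + ∑ g ∈ Icc 2 (d₁ + d₂), Nat.totient g * Y g := by
  have h1 : ∑ g ∈ Icc 2 (d₁ + d₂), Nat.totient g * (X g + wt a g) ≤
      ∑ g ∈ Icc 2 (d₁ + d₂), Nat.totient g * (dv g d₁ + dv g d₂ + Y g) :=
    sum_le_sum fun g hg => Nat.mul_le_mul_left _ (h g (by
      have := (mem_Icc.1 hg).1
      omega))
  simp only [mul_add, sum_add_distrib] at h1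
  have h2 := sum_totient_add_one D.d₁_pos (Nat.le_add_right d₁ d₂)
  have h3 := sum_totient_add_one D.d₂_pos (Nat.le_add_left d₂ d₁)
  rw [D.sum_wt] at h1
  omega

/-- two coprime weights which divide the same degree -/
theorem Data.pair (D : Data a d₁ d₂) {e : ℕ} (he : (d₁ - 1) + (d₂ - 1) ≤ e + ∑ i, (a i - 1))
    {i k : ι} (hik : i ≠ k) (hcop : Nat.Coprime (a i) (a k))
    (hd : (a i ∣ d₁ ∧ a k ∣ d₁) ∨ (a i ∣ d₂ ∧ a k ∣ d₂)) :
    (a i - 1) * (a k - 1) ≤ e := by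
  have hi := D.pos i
  have hk := D.pos k
  have hL : Nat.lcm (a i) (a k) ∣ d₁ ∨ Nat.lcm (a i) (a k) ∣ d₂ := by
    rcases hd with ⟨h1, h2⟩ | ⟨h1, h2⟩
    · exact Or.inl (Nat.lcm_dvd h1 h2)
    · exact Or.inr (Nat.lcm_dvd h1 h2)
  have hrest : ∀ g, wt a g = ∑ x ∈ (univ.erase i).erase k, dv g (a x) + dv g (a i) + dv g (a k) := by
    intro g
    unfold wt
    rw [← add_sum_erase _ _ (mem_univ i), ← add_sum_erase _ _ (mem_erase.2 ⟨hik.symm, mem_univ k⟩)]
    ring
  have h1 := D.le he (X := fun g => dv g (Nat.lcm (a i) (a k)))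
    (Y := fun g => dv g (a i) + dv g (a k)) (by
    intro g hg
    have h2 := term_two (d₁ := d₁) (d₂ := d₂) (x := a i) (y := a k)
      (r := ∑ x ∈ (univ.erase i).erase k, dv g (a x)) hg hi.ne' hk.ne' (by
      intro q hq hqg
      have h3 := D.star q hq
      rw [hrest q] at h3
      have h4 : ∑ x ∈ (univ.erase i).erase k, dv g (a x) ≤ ∑ x ∈ (univ.erase i).erase k, dv q (a x) :=
        sum_le_sum fun x _ => dv_mono hqg
      omega) hL
    rw [hrest g]
    omega)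
  have hLpos : 0 < Nat.lcm (a i) (a k) := Nat.lcm_pos hi hk
  have hLle : Nat.lcm (a i) (a k) ≤ d₁ + d₂ := by
    rcases hL with h | h
    · have := Nat.le_of_dvd D.d₁_pos h
      omega
    · have := Nat.le_of_dvd D.d₂_pos h
      omega
  have h2 := sum_totient_add_one hLpos hLle
  have h3 := sum_totient_add_one hi (D.le_sum i)
  have h4 := sum_totient_add_one hk (D.le_sum k)
  simp only [mul_add, sum_add_distrib] at h1
  rw [hcop.lcm_eq_mul] at h2 h1
  obtain ⟨p, hp⟩ : ∃ p, a i = p + 1 := ⟨a i - 1, by omega⟩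
  obtain ⟨q, hq⟩ : ∃ q, a k = q + 1 := ⟨a k - 1, by omega⟩
  rw [hp, hq] at h1 h2 ⊢
  simp only [Nat.add_sub_cancel]
  have h5 : (p + 1) * (q + 1) = p * q + p + q + 1 := by ring
  rw [h5] at h1 h2
  rw [hp] at h3
  rw [hq] at h4
  omega

/-- three weights -/
theorem Data.triple (D : Data a d₁ d₂) {e : ℕ} (he : (d₁ - 1) + (d₂ - 1) ≤ e + ∑ i, (a i - 1))
    {i k l : ι} (hik : i ≠ k) (hil : i ≠ l) (hkl : k ≠ l)
    (hd : (a i ∣ d₁ ∧ a k ∣ d₁) ∨ (a i ∣ d₂ ∧ a k ∣ d₂)) :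
    ∃ p q r : ℕ, p * a i + q * a k + r * a l = e := by
  have hi := D.pos i
  have hk := D.pos k
  have hl := D.pos l
  have hL : Nat.lcm (a i) (a k) ∣ d₁ ∨ Nat.lcm (a i) (a k) ∣ d₂ := by
    rcases hd with ⟨h1, h2⟩ | ⟨h1, h2⟩
    · exact Or.inl (Nat.lcm_dvd h1 h2)
    · exact Or.inr (Nat.lcm_dvd h1 h2)
  have hrest : ∀ g, wt a g = ∑ x ∈ ((univ.erase i).erase k).erase l, dv g (a x) + dv g (a i) +
      dv g (a k) + dv g (a l) := by
    intro g
    unfold wt
    rw [← add_sum_erase _ _ (mem_univ i), ← add_sum_erase _ _ (mem_erase.2 ⟨hik.symm, mem_univ k⟩),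
      ← add_sum_erase _ _ (mem_erase.2 ⟨hkl.symm, mem_erase.2 ⟨hil.symm, mem_univ l⟩⟩)]
    ring
  -- prime powers dividing two of the weights divide both degrees
  have hpp : ∀ g, 1 < g → g ∣ a i → g ∣ a k → g ∣ d₁ ∧ g ∣ d₂ := by
    intro g hg h1 h2
    have h3 := D.star g hg
    rw [hrest g, dv_of h1, dv_of h2] at h3
    constructor
    · by_contra hn
      rw [dv_of_not hn] at h3
      have := dv_le_one g d₂
      omega
    · by_contra hn
      rw [dv_of_not hn] at h3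
      have := dv_le_one g d₁
      omega
  have hgg : Nat.gcd (a i) (a k) ∣ d₁ ∧ Nat.gcd (a i) (a k) ∣ d₂ := by
    rcases Nat.lt_or_ge 1 (Nat.gcd (a i) (a k)) with h | h
    · exact hpp _ h (Nat.gcd_dvd_left _ _) (Nat.gcd_dvd_right _ _)
    · have : Nat.gcd (a i) (a k) = 1 := by
        have := Nat.gcd_pos_of_pos_left (a k) hi
        omega
      rw [this]
      exact ⟨one_dvd _, one_dvd _⟩
  have hL' : Nat.lcm (Nat.gcd (a i) (a k)) (a l) ∣ d₁ ∨ Nat.lcm (Nat.gcd (a i) (a k)) (a l) ∣ d₂ := by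
    rcases D.dvd_or l with h | h
    · exact Or.inl (Nat.lcm_dvd hgg.1 h)
    · exact Or.inr (Nat.lcm_dvd hgg.2 h)
  have hcop : Nat.Coprime (Nat.gcd (a i) (a k)) (a l) := by
    by_contra hcon
    have hne : Nat.gcd (Nat.gcd (a i) (a k)) (a l) ≠ 1 := hcon
    have hpos : 0 < Nat.gcd (Nat.gcd (a i) (a k)) (a l) := Nat.gcd_pos_of_pos_right _ hl
    set g := Nat.gcd (Nat.gcd (a i) (a k)) (a l) with hg
    have h1 : g ∣ a i := (Nat.gcd_dvd_left _ _).trans (Nat.gcd_dvd_left _ _)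
    have h2 : g ∣ a k := (Nat.gcd_dvd_left _ _).trans (Nat.gcd_dvd_right _ _)
    have h3 : g ∣ a l := Nat.gcd_dvd_right _ _
    have h4 := D.star g (by omega)
    rw [hrest g, dv_of h1, dv_of h2, dv_of h3] at h4
    have := dv_le_one g d₁
    have := dv_le_one g d₂
    omega
  have h1 := D.le he
    (X := fun g => dv g (Nat.lcm (a i) (a k)) + dv g (Nat.lcm (Nat.gcd (a i) (a k)) (a l)))
    (Y := fun g => dv g (a i) + dv g (a k) + dv g (a l)) (by
    intro g hg
    have h2 := term_three (d₁ := d₁) (d₂ := d₂) (x := a i) (y := a k) (z := a l)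
      (r := ∑ x ∈ ((univ.erase i).erase k).erase l, dv g (a x)) hg hi.ne' hk.ne' hl.ne' (by
      intro q hq hqg
      have h3 := D.star q hq
      rw [hrest q] at h3
      have h4 : ∑ x ∈ ((univ.erase i).erase k).erase l, dv g (a x) ≤
          ∑ x ∈ ((univ.erase i).erase k).erase l, dv q (a x) :=
        sum_le_sum fun x _ => dv_mono hqg
      omega) hL hL'
    rw [hrest g]
    omega)
  have hle : ∀ x : ℕ, (x ∣ d₁ ∨ x ∣ d₂) → x ≤ d₁ + d₂ := by
    intro x hx
    rcases hx with h | h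
    · have := Nat.le_of_dvd D.d₁_pos h
      omega
    · have := Nat.le_of_dvd D.d₂_pos h
      omega
  have hgpos : 0 < Nat.gcd (a i) (a k) := Nat.gcd_pos_of_pos_left _ hi
  have h2 := sum_totient_add_one (Nat.lcm_pos hi hk) (hle _ hL)
  have h2' := sum_totient_add_one (Nat.lcm_pos hgpos hl) (hle _ hL')
  have h3 := sum_totient_add_one hi (D.le_sum i)
  have h4 := sum_totient_add_one hk (D.le_sum k)
  have h5 := sum_totient_add_one hl (D.le_sum l)
  simp only [mul_add, sum_add_distrib] at h1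
  exact mem_of_triple hi hk hl hcop (by omega)

end Pool.Agent.R920.WC
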