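import Pool.Agent.R920.WC.TwoB

/-!
# Codimension two: two weights which divide different degrees
-/

set_option autoImplicit false

namespace Pool.Agent.R920.WC

open Finset

variable {ι : Type*} [Fintype ι] [DecidableEq ι] {a : ι → ℕ} {d₁ d₂ : ℕ}

theorem dv_mul_dv (g x y : ℕ) : dv g x * dv g y = dv g (Nat.gcd x y) := by
  by_cases hx : g ∣ x
  · by_cases hy : g ∣ y
    · rw [dv_of hx, dv_of hy, dv_of (Nat.dvd_gcd hx hy)]
    · rw [dv_of hx, dv_of_not hy, dv_of_not fun h => hy (h.trans (Nat.gcd_dvd_right _ _))]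
  · rw [dv_of_not hx, dv_of_not fun h => hx (h.trans (Nat.gcd_dvd_left _ _)), zero_mul]

/-- the part of the excess which belongs to the divisors of `d₁` which do not divide `d₂` -/
def part (a : ι → ℕ) (d₁ d₂ : ℕ) : ℤ :=
  ((d₁ : ℤ) - Nat.gcd d₁ d₂) - ∑ i, ((Nat.gcd (a i) d₁ : ℤ) - Nat.gcd (a i) (Nat.gcd d₁ d₂))

theorem sum_totient_int {N x : ℕ} (hx : 0 < x) (hN : x ≤ N) :
    ∑ g ∈ Icc 2 N, (Nat.totient g : ℤ) * dv g x = (x : ℤ) - 1 := by
  have h := sum_totient_add_one hx hN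
  have h2 : ((∑ g ∈ Icc 2 N, Nat.totient g * dv g x + 1 : ℕ) : ℤ) = x := by rw [h]
  push_cast at h2
  linarith

theorem Data.part_eq (D : Data a d₁ d₂) :
    part a d₁ d₂ = ∑ g ∈ Icc 2 (d₁ + d₂), (Nat.totient g : ℤ) *
      (((dv g d₁ : ℤ) - dv g (Nat.gcd d₁ d₂)) * (1 - wt a g)) := by
  have hh : 0 < Nat.gcd d₁ d₂ := Nat.gcd_pos_of_pos_left _ D.d₁_pos
  have hhle : Nat.gcd d₁ d₂ ≤ d₁ + d₂ := (Nat.gcd_le_left _ D.d₁_pos).trans (Nat.le_add_right _ _)
  have h1 : ∀ g, (Nat.totient g : ℤ) * (((dv g d₁ : ℤ) - dv g (Nat.gcd d₁ d₂)) * (1 - wt a g)) =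
      ((Nat.totient g : ℤ) * dv g d₁ - (Nat.totient g : ℤ) * dv g (Nat.gcd d₁ d₂)) -
      ∑ i, ((Nat.totient g : ℤ) * dv g (Nat.gcd (a i) d₁) -
        (Nat.totient g : ℤ) * dv g (Nat.gcd (a i) (Nat.gcd d₁ d₂))) := by
    intro g
    have h2 : ∀ i, ((Nat.totient g : ℤ) * dv g (Nat.gcd (a i) d₁) -
        (Nat.totient g : ℤ) * dv g (Nat.gcd (a i) (Nat.gcd d₁ d₂))) =
        (Nat.totient g : ℤ) * ((dv g d₁ : ℤ) - dv g (Nat.gcd d₁ d₂)) * dv g (a i) := by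
      intro i
      rw [← dv_mul_dv, ← dv_mul_dv g (a i) (Nat.gcd d₁ d₂)]
      push_cast
      ring
    simp only [h2]
    rw [← mul_sum]
    unfold wt
    push_cast
    ring
  simp only [h1]
  rw [sum_sub_distrib, sum_sub_distrib, sum_totient_int D.d₁_pos (Nat.le_add_right _ _),
    sum_totient_int hh hhle, sum_comm]
  unfold part
  have h3 : ∀ i, ∑ g ∈ Icc 2 (d₁ + d₂), ((Nat.totient g : ℤ) * dv g (Nat.gcd (a i) d₁) -
      (Nat.totient g : ℤ) * dv g (Nat.gcd (a i) (Nat.gcd d₁ d₂))) =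
      (Nat.gcd (a i) d₁ : ℤ) - Nat.gcd (a i) (Nat.gcd d₁ d₂) := by
    intro i
    rw [sum_sub_distrib, sum_totient_int (Nat.gcd_pos_of_pos_left _ (D.pos i))
      ((Nat.gcd_le_left _ (D.pos i)).trans (D.le_sum i)),
      sum_totient_int (Nat.gcd_pos_of_pos_left _ (D.pos i))
      ((Nat.gcd_le_left _ (D.pos i)).trans (D.le_sum i))]
    ring
  simp only [h3]
  ring

theorem Data.two_parts (D : Data a d₁ d₂) {e : ℕ}
    (he : (d₁ - 1) + (d₂ - 1) ≤ e + ∑ i, (a i - 1)) :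
    part a d₁ d₂ + part a d₂ d₁ ≤ e := by
  have h1 : ∑ g ∈ Icc 2 (d₁ + d₂), (Nat.totient g : ℤ) * ((dv g d₁ : ℤ) + dv g d₂ - wt a g) ≤ e := by
    have h2 : ∑ g ∈ Icc 2 (d₁ + d₂), (Nat.totient g : ℤ) * ((dv g d₁ : ℤ) + dv g d₂ - wt a g) =
        ∑ g ∈ Icc 2 (d₁ + d₂), (Nat.totient g : ℤ) * dv g d₁ +
        ∑ g ∈ Icc 2 (d₁ + d₂), (Nat.totient g : ℤ) * dv g d₂ -
        ∑ g ∈ Icc 2 (d₁ + d₂), (Nat.totient g : ℤ) * wt a g := by
      rw [← sum_add_distrib, ← sum_sub_distrib]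
      exact sum_congr rfl fun g _ => by ring
    have h3 : ((∑ g ∈ Icc 2 (d₁ + d₂), Nat.totient g * wt a g : ℕ) : ℤ) =
        ((∑ i, (a i - 1) : ℕ) : ℤ) := by rw [D.sum_wt]
    rw [h2, sum_totient_int D.d₁_pos (Nat.le_add_right _ _),
      sum_totient_int D.d₂_pos (Nat.le_add_left _ _)]
    rw [Nat.cast_sum] at h3
    simp only [Nat.cast_mul] at h3
    rw [h3]
    have h4 := D.d₁_pos
    have h5 := D.d₂_pos
    omega
  refine le_trans ?_ h1
  have h6 := D.symm.part_eq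
  rw [add_comm d₂ d₁] at h6
  rw [D.part_eq, h6, ← sum_add_distrib]
  refine sum_le_sum fun g hg => ?_
  rw [← mul_add]
  refine mul_le_mul_of_nonneg_left ?_ (Nat.cast_nonneg _)
  have hg1 : 1 < g := by
    have := (mem_Icc.1 hg).1
    omega
  have h7 := D.star g hg1
  rw [Nat.gcd_comm d₂ d₁]
  by_cases h8 : g ∣ d₁ <;> by_cases h9 : g ∣ d₂
  · rw [dv_of h8, dv_of h9, dv_of (Nat.dvd_gcd h8 h9)]
    rw [dv_of h8, dv_of h9] at h7
    push_cast
    have : (wt a g : ℤ) ≤ 2 := by exact_mod_cast h7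
    linarith
  · rw [dv_of h8, dv_of_not h9, dv_of_not fun h => h9 (h.trans (Nat.gcd_dvd_right _ _))]
    push_cast
    linarith
  · rw [dv_of_not h8, dv_of h9, dv_of_not fun h => h8 (h.trans (Nat.gcd_dvd_left _ _))]
    push_cast
    linarith
  · rw [dv_of_not h8, dv_of_not h9, dv_of_not fun h => h8 (h.trans (Nat.gcd_dvd_left _ _))]
    rw [dv_of_not h8, dv_of_not h9] at h7
    have : wt a g = 0 := by omega
    rw [this]
    norm_num

/-- the lower bound for a part -/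
theorem Data.part_ge (D : Data a d₁ d₂) {i₁ : ι} (hi₁ : a i₁ ∣ d₁) {b : ℕ} (hb : 0 < b)
    (hab : a i₁ * b ≤ d₁) :
    ((a i₁ : ℤ) - Nat.gcd (a i₁) (Nat.gcd d₁ d₂)) * (b - 1) ≤ part a d₁ d₂ := by
  classical
  set h := Nat.gcd d₁ d₂ with hh
  have hpos : 0 < h := Nat.gcd_pos_of_pos_left _ D.d₁_pos
  have hd : h ∣ d₁ := Nat.gcd_dvd_left _ _
  set α : ι → ℕ := fun i => Nat.gcd (a i) d₁ with hα
  set β : ι → ℕ := fun i => Nat.gcd (a i) h with hβ
  have hβpos : ∀ i, 0 < β i := fun i => Nat.gcd_pos_of_pos_left _ (D.pos i)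
  have hαpos : ∀ i, 0 < α i := fun i => Nat.gcd_pos_of_pos_left _ (D.pos i)
  have hβα : ∀ i, β i ∣ α i := fun i =>
    Nat.dvd_gcd (Nat.gcd_dvd_left _ _) ((Nat.gcd_dvd_right _ _).trans hd)
  have hβeq : ∀ i, β i = Nat.gcd (α i) h := by
    intro i
    apply Nat.dvd_antisymm
    · exact Nat.dvd_gcd (hβα i) (Nat.gcd_dvd_right _ _)
    · exact Nat.dvd_gcd ((Nat.gcd_dvd_left _ _).trans (Nat.gcd_dvd_left _ _)) (Nat.gcd_dvd_right _ _)
  set A : ι → ℕ := fun i => α i / β i with hA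
  have hAβ : ∀ i, β i * A i = α i := fun i => Nat.mul_div_cancel' (hβα i)
  have hApos : ∀ i, 0 < A i := fun i => by
    rcases Nat.eq_zero_or_pos (A i) with h0 | h0
    · have := hAβ i
      rw [h0, mul_zero] at this
      have := hαpos i
      omega
    · exact h0
  -- a prime dividing `A i`
  have hprime : ∀ i p, p.Prime → p ∣ A i → p ^ (h.factorization p + 1) ∣ α i := by
    intro i p hp hpA
    obtain ⟨h', hh'⟩ : β i ∣ h := Nat.gcd_dvd_right _ _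
    have hcop : Nat.Coprime (A i) h' := by
      have h1 : β i * Nat.gcd (A i) h' = β i * 1 := by
        rw [← Nat.gcd_mul_left, hAβ, ← hh', mul_one]
        exact (hβeq i).symm
      exact Nat.eq_of_mul_eq_mul_left (hβpos i) h1
    have hp' : ¬ p ∣ h' := by
      intro h1
      have h2 := Nat.dvd_gcd hpA h1
      rw [hcop] at h2
      exact hp.one_lt.ne' (Nat.dvd_one.1 h2)
    have h1 : p ^ h.factorization p ∣ β i * h' := by
      rw [← hh']
      exact Nat.ordProj_dvd h p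
    have h2 : p ^ h.factorization p ∣ β i :=
      (Nat.Coprime.pow_left _ ((Nat.Prime.coprime_iff_not_dvd hp).2 hp')).dvd_of_dvd_mul_right h1
    rw [← hAβ i, pow_succ]
    exact Nat.mul_dvd_mul h2 hpA
  have hcopA : ∀ i k, i ≠ k → Nat.Coprime (A i) (A k) := by
    intro i k hik
    by_contra hcon
    obtain ⟨p, hp, h1, h2⟩ := Nat.Prime.not_coprime_iff_dvd.1 hcon
    have h3 := hprime i p hp h1
    have h4 := hprime k p hp h2
    set q := p ^ (h.factorization p + 1) with hq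
    have hq1 : 1 < q := Nat.one_lt_pow (by omega) hp.one_lt
    have h5 := D.star q hq1
    have h6 : dv q (a i) + dv q (a k) ≤ wt a q := by
      unfold wt
      rw [← add_sum_erase _ _ (mem_univ i), ← add_sum_erase _ _ (mem_erase.2 ⟨hik.symm, mem_univ k⟩)]
      omega
    rw [dv_of (h3.trans (Nat.gcd_dvd_left _ _)), dv_of (h4.trans (Nat.gcd_dvd_left _ _))] at h6
    have h7 : q ∣ d₁ := h3.trans (Nat.gcd_dvd_right _ _)
    rw [dv_of h7] at h5
    have h8 : q ∣ d₂ := by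
      by_contra hn
      rw [dv_of_not hn] at h5
      omega
    exact Nat.pow_succ_factorization_not_dvd hpos.ne' hp (Nat.dvd_gcd h7 h8)
  obtain ⟨d', hd'⟩ := hd
  have hAd : ∀ i, A i ∣ d' := by
    intro i
    have h1 : Nat.lcm (α i) h ∣ d₁ := Nat.lcm_dvd (Nat.gcd_dvd_right _ _) ⟨d', hd'⟩
    have h2 : Nat.lcm (α i) h = h * A i := by
      have h3 := Nat.gcd_mul_lcm (α i) h
      rw [← hβeq i] at h3
      have h4 : β i * Nat.lcm (α i) h = β i * (h * A i) := by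
        rw [h3]
        conv_lhs => rw [← hAβ i]
        ring
      exact Nat.eq_of_mul_eq_mul_left (hβpos i) h4
    rw [h2, hd'] at h1
    exact Nat.dvd_of_mul_dvd_mul_left hpos h1
  have hd'pos : 0 < d' := by
    rcases Nat.eq_zero_or_pos d' with h0 | h0
    · rw [h0, mul_zero] at hd'
      have := D.d₁_pos
      omega
    · exact h0
  have hprod : A i₁ * ∏ i ∈ univ.erase i₁, A i ≤ d' := by
    rw [mul_prod_erase _ _ (mem_univ i₁)]
    exact Nat.le_of_dvd hd'pos (prod_dvd univ A (fun i _ k _ hik => hcopA i k hik) d' fun i _ => hAd i)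
  set P := ∏ i ∈ univ.erase i₁, A i with hP
  have hsumP := one_add_sum_le_prod (univ.erase i₁) A (fun i _ => hApos i)
  have hαi₁ : α i₁ = a i₁ := Nat.gcd_eq_left hi₁
  -- the sum
  have h1 : ∑ i, ((α i : ℤ) - β i) ≤ (β i₁ : ℤ) * (A i₁ - 1) + h * (P - 1) := by
    rw [← add_sum_erase _ _ (mem_univ i₁)]
    have h2 : ((α i₁ : ℤ) - β i₁) = (β i₁ : ℤ) * (A i₁ - 1) := by
      rw [← hAβ i₁]
      push_cast
      ring
    have h3 : ∑ i ∈ univ.erase i₁, ((α i : ℤ) - β i) ≤ ∑ i ∈ univ.erase i₁, (h : ℤ) * ((A i - 1 : ℕ) : ℤ) := by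
      refine sum_le_sum fun i _ => ?_
      rw [← hAβ i]
      have h4 : (β i : ℤ) ≤ h := by exact_mod_cast Nat.le_of_dvd hpos (Nat.gcd_dvd_right _ _)
      have h5 : ((A i - 1 : ℕ) : ℤ) = (A i : ℤ) - 1 := by
        have := hApos i
        omega
      have h6 : (0 : ℤ) ≤ (A i : ℤ) - 1 := by
        have := hApos i
        omega
      rw [h5]
      push_cast
      nlinarith
    have h4 : ∑ i ∈ univ.erase i₁, (h : ℤ) * ((A i - 1 : ℕ) : ℤ) ≤ h * (P - 1) := by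
      rw [← mul_sum]
      refine mul_le_mul_of_nonneg_left ?_ (Nat.cast_nonneg _)
      have h5 : ((1 + ∑ i ∈ univ.erase i₁, (A i - 1) : ℕ) : ℤ) ≤ P := by exact_mod_cast hsumP
      push_cast at h5 ⊢
      linarith
    rw [h2]
    linarith
  have h2 : part a d₁ d₂ = ((d₁ : ℤ) - h) - ∑ i, ((α i : ℤ) - β i) := rfl
  -- the numerical inequality
  have hAi : (a i₁ : ℤ) = β i₁ * A i₁ := by
    rw [← hαi₁, ← hAβ i₁]
    push_cast
    ring
  have h3 : (A i₁ : ℤ) * (h * P) ≤ d₁ := by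
    have : A i₁ * (h * P) ≤ d₁ := by
      rw [hd']
      calc A i₁ * (h * P) = h * (A i₁ * P) := by ring
        _ ≤ h * d' := Nat.mul_le_mul_left _ hprod
    exact_mod_cast this
  have h4 : (β i₁ : ℤ) * A i₁ * b ≤ d₁ := by
    rw [← hAi]
    exact_mod_cast hab
  have hA1 : (1 : ℤ) ≤ A i₁ := by exact_mod_cast hApos i₁
  -- d₁ - h P ≥ β (A - 1) b
  have h5 : (β i₁ : ℤ) * (A i₁ - 1) * b ≤ d₁ - h * P := by
    by_contra hcon
    push Not at hcon
    have h6 : (A i₁ : ℤ) * (d₁ - h * P) < A i₁ * ((β i₁ : ℤ) * (A i₁ - 1) * b) :=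
      mul_lt_mul_of_pos_left hcon (by linarith)
    have h7 : ((A i₁ : ℤ) - 1) * (β i₁ * A i₁ * b) ≤ (A i₁ - 1) * d₁ :=
      mul_le_mul_of_nonneg_left h4 (by linarith)
    nlinarith
  rw [h2, hAi]
  change ((β i₁ : ℤ) * A i₁ - β i₁) * (b - 1) ≤ _
  nlinarith

/-- two weights which divide different degrees -/
theorem Data.split (D : Data a d₁ d₂) {e : ℕ} (he : (d₁ - 1) + (d₂ - 1) ≤ e + ∑ i, (a i - 1))
    {i k : ι} (hi : a i ∣ d₁) (hi' : ¬ a i ∣ d₂) (hk : a k ∣ d₂) (hk' : ¬ a k ∣ d₁)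
    (h1 : a i * a k ≤ d₁) (h2 : a i * a k ≤ d₂) : (a i - 1) * (a k - 1) ≤ e := by
  have h3 := D.two_parts he
  have h4 := D.part_ge hi (D.pos k) h1
  have h5 := D.symm.part_ge hk (D.pos i) (by rw [mul_comm]; exact h2)
  rw [Nat.gcd_comm d₂ d₁] at h5
  -- proper divisors
  have half : ∀ x : ℕ, 0 < x → ¬ x ∣ Nat.gcd d₁ d₂ → 2 * Nat.gcd x (Nat.gcd d₁ d₂) ≤ x := by
    intro x hx hn
    obtain ⟨y, hy⟩ := Nat.gcd_dvd_left x (Nat.gcd d₁ d₂)
    have hg : 0 < Nat.gcd x (Nat.gcd d₁ d₂) := Nat.gcd_pos_of_pos_left _ hx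
    have hy2 : 2 ≤ y := by
      by_contra hcon
      have : y = 0 ∨ y = 1 := by omega
      rcases this with rfl | rfl
      · rw [mul_zero] at hy
        omega
      · rw [mul_one] at hy
        exact hn (hy ▸ Nat.gcd_dvd_right x (Nat.gcd d₁ d₂))
    calc 2 * Nat.gcd x (Nat.gcd d₁ d₂) ≤ y * Nat.gcd x (Nat.gcd d₁ d₂) := Nat.mul_le_mul_right _ hy2
      _ = x := by rw [mul_comm]; exact hy.symm
  have h6 := half (a i) (D.pos i) fun h => hi' (h.trans (Nat.gcd_dvd_right _ _))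
  have h7 := half (a k) (D.pos k) fun h => hk' (h.trans (Nat.gcd_dvd_left _ _))
  have h8 := D.pos i
  have h9 := D.pos k
  have h10 : (((a i - 1) * (a k - 1) : ℕ) : ℤ) = ((a i : ℤ) - 1) * ((a k : ℤ) - 1) := by
    rw [Nat.cast_mul, Nat.cast_sub h8, Nat.cast_sub h9]
    push_cast
    ring
  have h6' : (2 : ℤ) * Nat.gcd (a i) (Nat.gcd d₁ d₂) ≤ a i := by exact_mod_cast h6
  have h7' : (2 : ℤ) * Nat.gcd (a k) (Nat.gcd d₁ d₂) ≤ a k := by exact_mod_cast h7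
  have h8' : (1 : ℤ) ≤ a i := by exact_mod_cast h8
  have h9' : (1 : ℤ) ≤ a k := by exact_mod_cast h9
  have h11 : ((a i : ℤ) - 1) * ((a k : ℤ) - 1) ≤ e := by
    nlinarith
  rw [← h10] at h11
  exact_mod_cast h11

end Pool.Agent.R920.WC
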