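import Pool.Agent.R920.WC.TwoC

/-!
# Codimension two: the theorem
-/

set_option autoImplicit false

open MvPolynomial

namespace Pool.Agent.R920.WC

variable {ι : Type*} [Fintype ι] [DecidableEq ι]

/-- the pair of weights which divide different degrees -/
theorem mul_le_of_second (a : ι → ℕ) (ha : ∀ i, 0 < a i) (d : Fin 2 → ℕ) (hd : ∀ j, 0 < d j)
    (f : Fin 2 → MvPolynomial ι ℂ) (hf : ∀ j, IsWeightedHomogeneous a (f j) (d j))
    (hgcd : ∀ v : ι → ℂ, v ≠ 0 → (∀ j, eval v (f j) = 0) →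
      ∀ g : ℕ, (∀ i, v i ≠ 0 → g ∣ a i) → g = 1)
    (v : ι → ℂ) (hfv : ∀ j, eval v (f j) = 0) {i k : ι} (hik : i ≠ k) (hvi : v i ≠ 0)
    (hv : ∀ l, l ≠ i → l ≠ k → v l = 0) (hcop : Nat.Coprime (a i) (a k)) (hai : a i ≠ 1)
    {j j' : Fin 2} (hj : ∀ x, x = j ∨ x = j') (hj' : ¬ a i ∣ d j') : a i * a k ≤ d j := by
  obtain ⟨x, l, hl, hla⟩ := exists_pure a d f hf hgcd hai
  have hx : x = j := by
    rcases hj x with h | h
    · exact h
    · subst h
      exact absurd ⟨l, by rw [← hla, mul_comm]⟩ hj'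
  subst hx
  obtain ⟨m, hm0, hm, k', hk', hmk'⟩ := exists_second a ha d f hf v (hfv x) hvi hl hla
  have hkk : k' = k := by
    by_contra hne
    exact hmk' (hm0 k' (hv k' hk' hne))
  subst hkk
  have h1 : ∑ z, m z * a z = m i * a i + m k' * a k' := by
    rw [← Finset.add_sum_erase _ _ (Finset.mem_univ i),
      ← Finset.add_sum_erase _ _ (Finset.mem_erase.2 ⟨hk', Finset.mem_univ k'⟩),
      Finset.sum_eq_zero, add_zero]
    intro z hz
    have hz1 := Finset.ne_of_mem_erase hz
    have hz2 := Finset.ne_of_mem_erase (Finset.mem_of_mem_erase hz)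
    rw [hm0 z (hv z hz2 hz1), zero_mul]
  rw [h1] at hm
  have h2 : a i ∣ m k' * a k' := by
    have h3 : a i ∣ d x := ⟨l, by rw [← hla, mul_comm]⟩
    rw [← hm] at h3
    exact (Nat.dvd_add_right (Dvd.intro_left _ rfl)).1 h3
  have h3 : a i ∣ m k' := hcop.dvd_of_dvd_mul_right h2
  have h4 := Nat.le_of_dvd (Nat.pos_of_ne_zero hmk') h3
  calc a i * a k' ≤ m k' * a k' := Nat.mul_le_mul_right _ h4
    _ ≤ m i * a i + m k' * a k' := Nat.le_add_left _ _
    _ = d x := hm

/-- the theorem -/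
theorem generated_two (a : ι → ℕ) (ha : ∀ i, 0 < a i) (d : Fin 2 → ℕ) (hd : ∀ j, 0 < d j)
    (f : Fin 2 → MvPolynomial ι ℂ) (hf : ∀ j, IsWeightedHomogeneous a (f j) (d j))
    (hgcd : ∀ v : ι → ℂ, v ≠ 0 → (∀ j, eval v (f j) = 0) →
      ∀ g : ℕ, (∀ i, v i ≠ 0 → g ∣ a i) → g = 1)
    {e : ℕ} (he : (d 0 - 1) + (d 1 - 1) ≤ e + ∑ i, (a i - 1))
    (v : ι → ℂ) (hv : v ≠ 0) (hfv : ∀ j, eval v (f j) = 0) :
    ∃ s : MvPolynomial ι ℂ, IsWeightedHomogeneous a s e ∧ eval v s ≠ 0 := by
  classical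
  refine exists_form a v ?_
  set I : Finset ι := Finset.univ.filter fun i => v i ≠ 0 with hI
  have hmemI : ∀ i, i ∈ I ↔ v i ≠ 0 := fun i => by simp [hI]
  have D : Data a (d 0) (d 1) := by
    refine ⟨ha, hd 0, hd 1, fun g hg => ?_⟩
    rw [wt_eq_card]
    refine (card_weights_le a ha d hd f hf hgcd (by omega : g ≠ 1)).trans ?_
    rw [Finset.card_filter]
    simp only [Fin.sum_univ_two, dv]
    exact le_rfl
  by_cases h1 : ∃ i ∈ I, a i = 1
  · obtain ⟨i, hi, hai⟩ := h1
    refine ⟨fun k => if k = i then e else 0, ?_⟩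
    simp [hi, hai]
  push Not at h1
  have hcard : 1 < I.card := by
    by_contra hcon
    push Not at hcon
    obtain ⟨i, hi⟩ : ∃ i, v i ≠ 0 := by
      by_contra h
      push Not at h
      exact hv (funext h)
    refine h1 i ((hmemI i).2 hi) (hgcd v hv hfv (a i) fun k hk => ?_)
    have : k = i := Finset.card_le_one.1 hcon k ((hmemI k).2 hk) i ((hmemI i).2 hi)
    rw [this]
  rcases Nat.lt_or_ge 2 I.card with h3 | h3
  · -- three weights
    obtain ⟨x, hx, y, hy, z, hz, hxy, hxz, hyz⟩ := Finset.two_lt_card.1 h3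
    have key : ∀ x ∈ I, ∀ y ∈ I, ∀ z ∈ I, x ≠ y → x ≠ z → y ≠ z →
        ((a x ∣ d 0 ∧ a y ∣ d 0) ∨ (a x ∣ d 1 ∧ a y ∣ d 1)) →
        ∃ m : ι → ℕ, ∑ k ∈ I, m k * a k = e := by
      intro x hx y hy z hz hxy hxz hyz h
      obtain ⟨p, q, r, hpqr⟩ := D.triple he hxy hxz hyz h
      refine ⟨fun w => (if w = x then p else 0) + (if w = y then q else 0) +
        (if w = z then r else 0), ?_⟩
      simp only [add_mul, Finset.sum_add_distrib, ite_mul, zero_mul, Finset.sum_ite_eq']
      rw [if_pos hx, if_pos hy, if_pos hz]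
      exact hpqr
    rcases D.dvd_or x with h4 | h4 <;> rcases D.dvd_or y with h5 | h5
    · exact key x hx y hy z hz hxy hxz hyz (Or.inl ⟨h4, h5⟩)
    · rcases D.dvd_or z with h6 | h6
      · exact key x hx z hz y hy hxz hxy hyz.symm (Or.inl ⟨h4, h6⟩)
      · exact key y hy z hz x hx hyz hxy.symm hxz.symm (Or.inr ⟨h5, h6⟩)
    · rcases D.dvd_or z with h6 | h6
      · exact key y hy z hz x hx hyz hxy.symm hxz.symm (Or.inl ⟨h5, h6⟩)
      · exact key x hx z hz y hy hxz hxy hyz.symm (Or.inr ⟨h4, h6⟩)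
    · exact key x hx y hy z hz hxy hxz hyz (Or.inr ⟨h4, h5⟩)
  · -- two weights
    have hc2 : I.card = 2 := by omega
    obtain ⟨x, y, hxy, hIxy⟩ := Finset.card_eq_two.1 hc2
    have hx : x ∈ I := by rw [hIxy]; simp
    have hy : y ∈ I := by rw [hIxy]; simp
    have hvx := (hmemI x).1 hx
    have hvy := (hmemI y).1 hy
    have hother : ∀ l, l ≠ x → l ≠ y → v l = 0 := by
      intro l h4 h5
      by_contra h
      have := (hmemI l).2 h
      rw [hIxy] at this
      simp [h4, h5] at this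
    have hcop : Nat.Coprime (a x) (a y) := by
      refine hgcd v hv hfv _ fun k hk => ?_
      have : k ∈ I := (hmemI k).2 hk
      rw [hIxy, Finset.mem_insert, Finset.mem_singleton] at this
      rcases this with rfl | rfl
      · exact Nat.gcd_dvd_left _ _
      · exact Nat.gcd_dvd_right _ _
    have hax := h1 x hx
    have hay := h1 y hy
    have hax1 : 1 < a x := by
      have := ha x
      omega
    have hay1 : 1 < a y := by
      have := ha y
      omega
    have hle : (a x - 1) * (a y - 1) ≤ e := by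
      by_cases h4 : (a x ∣ d 0 ∧ a y ∣ d 0) ∨ (a x ∣ d 1 ∧ a y ∣ d 1)
      · exact D.pair he hxy hcop h4
      · push Not at h4
        rcases D.dvd_or x with h5 | h5
        · have h6 : ¬ a y ∣ d 0 := h4.1 h5
          have h7 : a y ∣ d 1 := (D.dvd_or y).resolve_left h6
          have h8 : ¬ a x ∣ d 1 := fun h => h4.2 h h7
          refine D.split he h5 h8 h7 h6 ?_ ?_
          · exact mul_le_of_second a ha d hd f hf hgcd v hfv hxy hvx hother hcop hax
              (j := 0) (j' := 1) (by decide) h8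
          · rw [mul_comm]
            exact mul_le_of_second a ha d hd f hf hgcd v hfv hxy.symm hvy
              (fun l h9 h10 => hother l h10 h9) hcop.symm hay (j := 1) (j' := 0) (by decide) h6
        · have h7 : ¬ a y ∣ d 1 := h4.2 h5
          have h6 : a y ∣ d 0 := (D.dvd_or y).resolve_right h7
          have h8 : ¬ a x ∣ d 0 := fun h => h4.1 h h6
          rw [mul_comm]
          refine D.split he h6 h7 h5 h8 ?_ ?_
          · exact mul_le_of_second a ha d hd f hf hgcd v hfv hxy.symm hvy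
              (fun l h9 h10 => hother l h10 h9) hcop.symm hay (j := 0) (j' := 1) (by decide) h7
          · rw [mul_comm]
            exact mul_le_of_second a ha d hd f hf hgcd v hfv hxy hvx hother hcop hax
              (j := 1) (j' := 0) (by decide) h8
    obtain ⟨p, q, hpq⟩ := mem_of_pair hax1 hay1 hcop hle
    refine ⟨fun w => (if w = x then p else 0) + (if w = y then q else 0), ?_⟩
    simp only [add_mul, Finset.sum_add_distrib, ite_mul, zero_mul, Finset.sum_ite_eq']
    rw [if_pos hx, if_pos hy]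
    exact hpq

end Pool.Agent.R920.WC
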